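import Pool.Agent.Helper25.EN.Lsub
import Pool.Agent.Helper68.FQ.Reix
import Pool.Agent.Helper95.FQ.Cart

/-!
# Project FQ (MP_0f6f3f_an), layer EN (the end): all nodes

`EQout s s' W W' f u`: the output of the equality case at the node `u`. `en_all`: slope one and the dimensions. `fq_alg`: with the scale lemma, `L ≅ L'`.
-/

set_option autoImplicit false
set_option linter.unusedSectionVars false

namespace Pool.Agent.Helper25.EN

open Module Pool.Agent.Helper96.SA Pool.Agent.Helper96.TO Pool.Agent.Helper69.SLN Pool.Agent.Helper77.LA Pool.Agent.Helper77.FQ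
  Pool.Agent.Helper68.FQ Pool.Agent.Helper25.AE Pool.Agent.Helper87.FQ Pool.Agent.Helper2.BC Pool.Agent.Helper35.TZ Pool.Agent.Helper95.FQ

variable {L : Type} [LieRing L] [LieAlgebra ℝ L] {N : ℕ} {θ : L ≃ₗ⁅ℝ⁆ L} {b : Module.Basis (Fin N) ℝ L} {A : Submodule ℝ L}
  {τ : Module.Dual ℝ A ≃ₗ[ℝ] A} {ι : Type} [Fintype ι] [DecidableEq ι] {al : ι → Module.Dual ℝ A}
  {L' : Type} [LieRing L'] [LieAlgebra ℝ L'] {N' : ℕ} {θ' : L' ≃ₗ⁅ℝ⁆ L'} {b' : Module.Basis (Fin N') ℝ L'} {A' : Submodule ℝ L'}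
  {τ' : Module.Dual ℝ A' ≃ₗ[ℝ] A'} {al' : ι → Module.Dual ℝ A'}

/-- The output of the equality case at the node `u`. -/
def EQout (s : SD θ b A τ al) (s' : SD θ' b' A' τ' al') (W : ι → A) (W' : ι → A') (f : ι → ℝ → ℝ) (u : ι) : Prop :=
  ∃ (Θ : lsub A (W u) ≃ₗ[ℝ] lsub A' (W' u)) (C : ℝ), ∀ c : ι → ℝ, (∀ k, k ≠ u → 0 ≤ c k) →
    ∃ (a : A) (μ : A') (g k1 k2 : GL (Fin (Module.finrank ℝ (lsub A' (W' u)))) ℝ),
      (∀ k, k ≠ u → al k a = c k) ∧ (∀ k, k ≠ u → 0 ≤ al' k μ) ∧ (∀ k, k ≠ u → |al' k μ - f k (c k)| ≤ C) ∧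
      g = k1 * res s'.h s'.hA (W' u) (eh b' s'.hA (W' u) μ) * k2 ∧
      (k1 : Mat (Module.finrank ℝ (lsub A' (W' u)))).transpose * (k1 : Mat (Module.finrank ℝ (lsub A' (W' u)))) = 1 ∧
      (k2 : Mat (Module.finrank ℝ (lsub A' (W' u)))).transpose * (k2 : Mat (Module.finrank ℝ (lsub A' (W' u)))) = 1 ∧
      ∀ v, ac (bS s'.h s'.hA (W' u)) g (Θ v) = Θ (ac (bS s.h s.hA (W u)) (res s.h s.hA (W u) (eh b s.hA (W u) a)) v)

theorem EQout.spec {s : SD θ b A τ al} {s' : SD θ' b' A' τ' al'} {W : ι → A} {W' : ι → A'} {f : ι → ℝ → ℝ} {u : ι} (h : EQout s s' W W' f u)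
    (cm : Cmb A al) (cm' : Cmb A' al') (hW : ∀ k, al k (W u) = if k = u then 1 else 0) (hW' : ∀ k, al' k (W' u) = if k = u then 1 else 0) :
    (∃ D : ℝ, 0 ≤ D ∧ ∀ k, k ≠ u → ∀ t, 0 ≤ t → |f k t - t| ≤ D) ∧ DimOff A A' al al' u := by
  obtain ⟨Θ, C, h⟩ := h
  obtain ⟨h1, h2⟩ := spec_SS s s' cm cm' u (fun k hk => by rw [hW, if_neg hk]) (by rw [hW, if_pos rfl]; exact one_ne_zero)
    (fun k hk => by rw [hW', if_neg hk]) (by rw [hW', if_pos rfl]; exact one_ne_zero) Θ C f h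
  exact ⟨h1, fun n hn hu => h2 n hu hn⟩

/-- **Slope one and the dimensions**, from the equality case at all nodes. -/
theorem en_all [Nontrivial ι] {s : SD θ b A τ al} {s' : SD θ' b' A' τ' al'} {W : ι → A} {W' : ι → A'} {f : ι → ℝ → ℝ}
    (cm : Cmb A al) (cm' : Cmb A' al') (hW : ∀ u k, al k (W u) = if k = u then 1 else 0) (hW' : ∀ u k, al' k (W' u) = if k = u then 1 else 0)
    (h : ∀ u, EQout s s' W W' f u) : (∃ D : ℝ, ∀ i t, 0 ≤ t → |f i t - t| ≤ D) ∧ ∀ u, DimOff A A' al al' u := by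
  have h1 := fun u => (h u).spec cm cm' (hW u) (hW' u)
  refine ⟨?_, fun u => (h1 u).2⟩
  choose D hD0 hD using fun u => (h1 u).1
  refine ⟨∑ u, D u, fun i t ht => ?_⟩
  obtain ⟨u, hu⟩ := exists_off i
  exact (hD u i hu t ht).trans (Finset.single_le_sum (fun u _ => hD0 u) (Finset.mem_univ u))

/-- **The algebraic end of Q1**: the equality case at all nodes and the scale lemma at all nodes. -/
theorem fq_alg [Nontrivial ι] [LieAlgebra.IsSimple ℝ L] [LieAlgebra.IsSimple ℝ L'] {s : SD θ b A τ al} {s' : SD θ' b' A' τ' al'}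
    {W : ι → A} {W' : ι → A'} {f : ι → ℝ → ℝ} (cm : Cmb A al) (cm' : Cmb A' al') (hW : ∀ u k, al k (W u) = if k = u then 1 else 0)
    (hW' : ∀ u k, al' k (W' u) = if k = u then 1 else 0) (h : ∀ u, EQout s s' W W' f u)
    (β : ι → ι → ℝ) (hβ : ∀ u k, k ≠ u → ∑ i, β u i * al' i (τ' (al' k)) = 0) (hβ0 : ∀ u, ∑ i, β u i * al' i (τ' (al' u)) ≠ 0)
    (hs : (∃ D : ℝ, ∀ i t, 0 ≤ t → |f i t - t| ≤ D) → ∀ u, ∃ l : Filter ℕ, l.NeBot ∧ l ≤ Filter.atTop ∧ ∃ (m : ℕ → ℝ) (C : ℝ), ∀ a : A,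
      (∃ r : {k : ι // k ≠ u} → ℝ, a = ∑ k, r k • τ (al k)) →
      (∀ i, i ≠ u → 0 ≤ al i a) → ∀ᶠ n : ℕ in l, |∑ i, β u i * f i (al i a + if i = u then (n : ℝ) else 0) - m n| ≤ C) :
    ∃ e : L ≃ₗ⁅ℝ⁆ L', ∀ x, e (θ x) = θ' (e x) := by
  obtain ⟨⟨D, hD⟩, hdim⟩ := en_all cm cm' hW hW' h
  exact fq_end_hC s s' (Equiv.refl ι) hdim (hC_of_scale s s' f D hD β hβ hβ0 (hs ⟨D, hD⟩))

end Pool.Agent.Helper25.EN
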