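import Mathlib

/-!
# Project FQ (MP_0f6f3f_an), layer EN (the end): comparison of two lists of linear forms

`list_eq`: if for every `t ≥ 0` the two finite lists of numbers `∑ k, n a k * t k` and `∑ k, n' b k * w t k`, with `w t k = f k (t k) + O(1)`, agree up to a bounded error and a bijection, then the two multisets of integer
vectors `n a`, `n' b` agree, and `f k s = s + O(1)`.
-/

set_option autoImplicit false

namespace Pool.Agent.Helper25.EN

open Finset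

/-- Uniqueness of the expansion in a large base. -/
theorem base_zero {M : ℤ} : ∀ {m : ℕ} (d : Fin m → ℤ), (∀ i, |d i| < M) → ∑ i, d i * M ^ (i : ℕ) = 0 → ∀ i, d i = 0
  | 0, _, _, _ => fun i => i.elim0
  | m + 1, d, hd, hs => by
    have hM : 0 < M := lt_of_le_of_lt (abs_nonneg _) (hd 0)
    rw [Fin.sum_univ_succ] at hs
    have h1 : ∑ i : Fin m, d i.succ * M ^ ((i.succ : Fin (m + 1)) : ℕ) = M * ∑ i : Fin m, d i.succ * M ^ (i : ℕ) := by
      rw [Finset.mul_sum]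
      refine Finset.sum_congr rfl fun i _ => ?_
      rw [Fin.val_succ, pow_succ]
      ring
    rw [h1] at hs
    simp only [Fin.val_zero, pow_zero, mul_one] at hs
    have h2 : d 0 = 0 := by
      refine Int.eq_zero_of_abs_lt_dvd (m := M) ?_ (hd 0)
      exact ⟨-∑ i : Fin m, d i.succ * M ^ (i : ℕ), by linarith⟩
    rw [h2, zero_add] at hs
    have h3 : ∑ i : Fin m, d i.succ * M ^ (i : ℕ) = 0 := by
      rcases mul_eq_zero.1 hs with h | h
      · exact absurd h hM.ne'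
      · exact h
    have h4 := base_zero (fun i => d i.succ) (fun i => hd _) h3
    intro i
    refine Fin.cases h2 (fun j => h4 j) i

/-- A vector with positive entries which separates bounded integer vectors. -/
theorem exists_sep (κ : Type*) [Fintype κ] (N : ℤ) : ∃ t : κ → ℝ, (∀ k, 0 ≤ t k) ∧
    ∀ d : κ → ℤ, (∀ k, |d k| ≤ N) → d ≠ 0 → 1 ≤ |∑ k, (d k : ℝ) * t k| := by
  classical
  let e := Fintype.equivFin κ
  refine ⟨fun k => ((|N| + 1 : ℤ) : ℝ) ^ (e k : ℕ), fun k => by positivity, fun d hd h0 => ?_⟩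
  have h1 : ∑ k, (d k : ℝ) * ((|N| + 1 : ℤ) : ℝ) ^ (e k : ℕ) = ((∑ i, d (e.symm i) * (|N| + 1) ^ (i : ℕ) : ℤ) : ℝ) := by
    push_cast
    rw [← Equiv.sum_comp e]
    simp
  rw [h1, ← Int.cast_abs]
  have h2 : ∑ i, d (e.symm i) * (|N| + 1) ^ (i : ℕ) ≠ 0 := by
    intro h3
    apply h0
    have h4 := base_zero (M := |N| + 1) (fun i => d (e.symm i)) (fun i => by
      have := hd (e.symm i)
      have := le_abs_self N
      show |d (e.symm i)| < |N| + 1
      linarith) h3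
    funext k
    have := h4 (e k)
    simpa using this
  have h3 : 1 ≤ |∑ i, d (e.symm i) * (|N| + 1) ^ (i : ℕ)| := Int.one_le_abs h2
  exact_mod_cast h3

variable {A B κ : Type*} [Fintype A] [Fintype B] [Fintype κ]

theorem exists_bound (n : A → κ → ℤ) : ∃ N : ℤ, 0 ≤ N ∧ ∀ a k, |n a k| ≤ N := by
  classical
  refine ⟨∑ a, ∑ k, |n a k|, Finset.sum_nonneg fun a _ => Finset.sum_nonneg fun k _ => abs_nonneg _, fun a k => ?_⟩
  calc |n a k| ≤ ∑ k, |n a k| := Finset.single_le_sum (f := fun k => |n a k|) (fun _ _ => abs_nonneg _) (mem_univ k)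
    _ ≤ ∑ a, ∑ k, |n a k| := Finset.single_le_sum (f := fun a => ∑ k, |n a k|)
        (fun _ _ => Finset.sum_nonneg fun k _ => abs_nonneg _) (mem_univ a)

theorem abs_sum_le' {N D : ℝ} (hN : 0 ≤ N) (m : κ → ℤ) (x : κ → ℝ) (hm : ∀ k, |(m k : ℝ)| ≤ N) (hx : ∀ k, |x k| ≤ D) :
    |∑ k, (m k : ℝ) * x k| ≤ Fintype.card κ * (N * D) := by
  calc |∑ k, (m k : ℝ) * x k| ≤ ∑ k, |(m k : ℝ) * x k| := Finset.abs_sum_le_sum_abs _ _
    _ ≤ ∑ _k : κ, N * D := Finset.sum_le_sum fun k _ => by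
        rw [abs_mul]
        exact mul_le_mul (hm k) (hx k) (abs_nonneg _) hN
    _ = Fintype.card κ * (N * D) := by simp

variable [DecidableEq κ]

theorem single_sum (n : κ → ℤ) (k : κ) (s : ℝ) : ∑ j, (n j : ℝ) * (if j = k then s else 0) = n k * s := by
  simp

/-- The slopes are one. -/
theorem list_slope (n : A → κ → ℤ) (n' : B → κ → ℤ) (f : κ → ℝ → ℝ) (C : ℝ)
    (h : ∀ t : κ → ℝ, (∀ k, 0 ≤ t k) → ∃ e : A ≃ B, ∀ a, |∑ k, (n a k : ℝ) * t k - ∑ k, (n' (e a) k : ℝ) * f k (t k)| ≤ C)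
    (hf : ∀ k s, 0 ≤ s → -C ≤ f k s) (hs : ∀ k, ∃ a, ∀ j, n a j = if j = k then 1 else 0) (hs' : ∀ k, ∃ b, ∀ j, n' b j = if j = k then 1 else 0) :
    ∃ D : ℝ, 0 ≤ D ∧ ∀ k s, 0 ≤ s → |f k s - s| ≤ D := by
  rcases isEmpty_or_nonempty κ with hκ | ⟨⟨k0⟩⟩
  · exact ⟨0, le_rfl, fun k => hκ.elim k⟩
  have hC : 0 ≤ C := by
    obtain ⟨a, -⟩ := hs k0
    obtain ⟨e, he⟩ := h (fun _ => 0) (fun _ => le_rfl)
    exact le_trans (abs_nonneg _) (he a)
  have hf0 : ∀ k, |f k 0| ≤ C := by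
    intro k
    obtain ⟨b, hb⟩ := hs' k
    obtain ⟨e, he⟩ := h (fun _ => 0) (fun _ => le_rfl)
    have h1 := he (e.symm b)
    simp only [mul_zero, Finset.sum_const_zero, Equiv.apply_symm_apply, zero_sub, abs_neg] at h1
    have h2 : ∑ j, (n' b j : ℝ) * f j 0 = f k 0 := by
      rw [Finset.sum_eq_single k]
      · rw [hb, if_pos rfl]; push_cast; ring
      · intro j _ hj
        rw [hb, if_neg hj]; push_cast; ring
      · intro hk
        exact absurd (mem_univ k) hk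
    rwa [h2] at h1
  obtain ⟨N1, hN1, hn⟩ := exists_bound n
  obtain ⟨N2, hN2, hn'⟩ := exists_bound n'
  obtain ⟨N, hN⟩ : ∃ N : ℝ, N = ((N1 + N2 : ℤ) : ℝ) := ⟨_, rfl⟩
  have hN0 : 0 ≤ N := by
    rw [hN]
    exact_mod_cast add_nonneg hN1 hN2
  have hnN : ∀ a k, |(n a k : ℝ)| ≤ N := fun a k => by
    rw [hN, ← Int.cast_abs]
    exact_mod_cast le_trans (hn a k) (by linarith)
  have hnN' : ∀ a k, |(n' a k : ℝ)| ≤ N := fun a k => by
    rw [hN, ← Int.cast_abs]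
    exact_mod_cast le_trans (hn' a k) (by linarith)
  obtain ⟨C2, hC2⟩ : ∃ C2 : ℝ, C2 = C + Fintype.card κ * (N * C) := ⟨_, rfl⟩
  have hC20 : 0 ≤ C2 := by
    rw [hC2]
    positivity
  have key : ∀ k s, 0 ≤ s → ∃ e : A ≃ B, ∀ a, |(n a k : ℝ) * s - (n' (e a) k : ℝ) * f k s| ≤ C2 := by
    intro k s h0
    obtain ⟨e, he⟩ := h (fun j => if j = k then s else 0) (fun j => by
      split_ifs
      · exact h0
      · exact le_rfl)
    refine ⟨e, fun a => ?_⟩
    have h1 := he a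
    rw [single_sum] at h1
    have h2 : ∑ j, (n' (e a) j : ℝ) * f j (if j = k then s else 0) = (n' (e a) k : ℝ) * f k s +
        ∑ j, (n' (e a) j : ℝ) * (if j = k then 0 else f j 0) := by
      rw [← single_sum (n' (e a)) k (f k s), ← Finset.sum_add_distrib]
      refine Finset.sum_congr rfl fun j _ => ?_
      split_ifs with hj
      · rw [hj]; ring
      · ring
    rw [h2] at h1
    have h3 := abs_sum_le' (D := C) hN0 (n' (e a)) (fun j => if j = k then 0 else f j 0) (fun j => hnN' _ _) (fun j => by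
      split_ifs
      · rw [abs_zero]; exact hC
      · exact hf0 j)
    rw [hC2]
    rw [abs_le] at h1 h3 ⊢
    constructor <;> linarith [h1.1, h1.2, h3.1, h3.2]
  obtain ⟨S, hS⟩ : ∃ S : ℝ, S = C2 * (1 + N) + C2 + C := ⟨_, rfl⟩
  have hS0 : 0 ≤ S := by
    rw [hS]
    positivity
  refine ⟨C2 + (N + 1) * S, by positivity, fun k s h0 => ?_⟩
  obtain ⟨e, he⟩ := key k s h0
  obtain ⟨a, ha⟩ := hs k
  obtain ⟨b, hb⟩ := hs' k
  have h1 := he a
  have h2 := he (e.symm b)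
  rw [ha, if_pos rfl] at h1
  rw [Equiv.apply_symm_apply, hb, if_pos rfl] at h2
  obtain ⟨p, hp⟩ : ∃ p, p = n' (e a) k := ⟨_, rfl⟩
  obtain ⟨q, hq⟩ : ∃ q, q = n (e.symm b) k := ⟨_, rfl⟩
  have hpN : |(p : ℝ)| ≤ N := hp ▸ hnN' _ _
  have hqN : |(q : ℝ)| ≤ N := hq ▸ hnN _ _
  rw [← hp] at h1
  rw [← hq] at h2
  push_cast at h1 h2
  rw [one_mul] at h1 h2
  by_cases hsS : s ≤ S
  · have h3 : |(q : ℝ) - 1| ≤ N + 1 := by
      rw [abs_le] at hqN ⊢
      constructor <;> linarith [hqN.1, hqN.2]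
    have h4 : f k s - s = -((q : ℝ) * s - f k s) + ((q : ℝ) - 1) * s := by ring
    rw [h4]
    refine le_trans (abs_add_le _ _) ?_
    rw [abs_neg, abs_mul, abs_of_nonneg h0]
    have h5 : |(q : ℝ) - 1| * s ≤ (N + 1) * S := mul_le_mul h3 hsS h0 (by linarith)
    linarith
  · push Not at hsS
    have h3 : |(1 - p * q : ℝ) * s| ≤ C2 * (1 + N) := by
      have h4 : (1 - p * q : ℝ) * s = (s - p * f k s) - p * (q * s - f k s) := by ring
      rw [h4]
      refine le_trans (abs_sub _ _) ?_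
      rw [abs_mul]
      have h5 : |(p : ℝ)| * |(q : ℝ) * s - f k s| ≤ N * C2 := mul_le_mul hpN h2 (abs_nonneg _) hN0
      nlinarith
    rw [abs_mul, abs_of_nonneg h0] at h3
    have hpq : p * q = 1 := by
      by_contra h4
      have h5 : (1 : ℤ) - p * q ≠ 0 := fun h6 => h4 (by linarith)
      have h6 : (1 : ℝ) ≤ |(1 - p * q : ℝ)| := by
        have h7 := Int.one_le_abs h5
        have h8 : ((1 : ℤ) : ℝ) ≤ ((|1 - p * q| : ℤ) : ℝ) := by exact_mod_cast h7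
        push_cast at h8
        exact h8
      have h9 : s ≤ |(1 - p * q : ℝ)| * s := le_mul_of_one_le_left h0 h6
      rw [hS] at hsS
      linarith
    have hq1 : q = 1 := by
      rcases Int.eq_one_or_neg_one_of_mul_eq_one' hpq with ⟨-, h⟩ | ⟨-, h⟩
      · exact h
      · exfalso
        rw [h] at h2
        push_cast at h2
        have h4 := hf k s h0
        rw [abs_le] at h2
        have h5 : 0 ≤ C2 * (1 + N) := by positivity
        rw [hS] at hsS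
        linarith [h2.1, h2.2]
    rw [hq1] at h2
    push_cast at h2
    rw [one_mul, abs_sub_comm] at h2
    have h5 : 0 ≤ (N + 1) * S := by positivity
    linarith

/-- The two multisets of vectors agree. -/
theorem list_eq (n : A → κ → ℤ) (n' : B → κ → ℤ) (f : κ → ℝ → ℝ) (w : (κ → ℝ) → κ → ℝ) (C : ℝ)
    (h : ∀ t : κ → ℝ, (∀ k, 0 ≤ t k) → ∃ e : A ≃ B, ∀ a, |∑ k, (n a k : ℝ) * t k - ∑ k, (n' (e a) k : ℝ) * w t k| ≤ C)
    (hw : ∀ t : κ → ℝ, (∀ k, 0 ≤ t k) → ∀ k, |w t k - f k (t k)| ≤ C)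
    (hf : ∀ k s, 0 ≤ s → -C ≤ f k s) (hs : ∀ k, ∃ a, ∀ j, n a j = if j = k then 1 else 0) (hs' : ∀ k, ∃ b, ∀ j, n' b j = if j = k then 1 else 0) :
    (∃ D : ℝ, 0 ≤ D ∧ ∀ k s, 0 ≤ s → |f k s - s| ≤ D) ∧ ∃ e : A ≃ B, ∀ a, n' (e a) = n a := by
  obtain ⟨N1, hN1, hn⟩ := exists_bound n
  obtain ⟨N2, hN2, hn'⟩ := exists_bound n'
  obtain ⟨N, hN⟩ : ∃ N : ℝ, N = ((N2 : ℤ) : ℝ) := ⟨_, rfl⟩
  have hN0 : 0 ≤ N := by
    rw [hN]
    exact_mod_cast hN2
  have hnN' : ∀ a k, |(n' a k : ℝ)| ≤ N := fun a k => by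
    rw [hN, ← Int.cast_abs]
    exact_mod_cast hn' a k
  obtain ⟨C1, hC1⟩ : ∃ C1 : ℝ, C1 = |C| + Fintype.card κ * (N * |C|) := ⟨_, rfl⟩
  have hCC : C ≤ |C| := le_abs_self C
  have hC1C : C ≤ C1 := by
    have : 0 ≤ Fintype.card κ * (N * |C|) := by positivity
    linarith
  have h' : ∀ t : κ → ℝ, (∀ k, 0 ≤ t k) → ∃ e : A ≃ B, ∀ a, |∑ k, (n a k : ℝ) * t k - ∑ k, (n' (e a) k : ℝ) * f k (t k)| ≤ C1 := by
    intro t ht
    obtain ⟨e, he⟩ := h t ht
    refine ⟨e, fun a => ?_⟩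
    have h1 := he a
    have h2 : ∑ k, (n' (e a) k : ℝ) * w t k = ∑ k, (n' (e a) k : ℝ) * f k (t k) + ∑ k, (n' (e a) k : ℝ) * (w t k - f k (t k)) := by
      rw [← Finset.sum_add_distrib]
      exact Finset.sum_congr rfl fun k _ => by ring
    have h3 := abs_sum_le' (D := |C|) hN0 (n' (e a)) (fun k => w t k - f k (t k)) (fun j => hnN' _ _) (fun k => le_trans (hw t ht k) hCC)
    rw [h2] at h1
    rw [abs_le] at h1 h3 ⊢
    constructor <;> linarith [h1.1, h1.2, h3.1, h3.2]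
  obtain ⟨D, hD0, hD⟩ := list_slope n n' f C1 h' (fun k s h0 => le_trans (by linarith) (hf k s h0)) hs hs'
  refine ⟨⟨D, hD0, hD⟩, ?_⟩
  obtain ⟨C3, hC3⟩ : ∃ C3 : ℝ, C3 = C1 + Fintype.card κ * (N * D) := ⟨_, rfl⟩
  obtain ⟨t, ht, hsep⟩ := exists_sep κ (N1 + N2)
  have hT0 : 0 ≤ |C3| + 1 := by positivity
  obtain ⟨e, he⟩ := h' (fun k => (|C3| + 1) * t k) (fun k => mul_nonneg hT0 (ht k))
  refine ⟨e, fun a => ?_⟩
  by_contra hne
  have h1 := hsep (fun k => n a k - n' (e a) k) (fun k => by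
    refine le_trans (abs_sub _ _) ?_
    exact add_le_add (hn _ _) (hn' _ _)) (fun h0 => hne (funext fun k => by
      have := congrFun h0 k
      simp only [Pi.zero_apply] at this
      linarith))
  have h2 := he a
  have h3 := abs_sum_le' (D := D) hN0 (n' (e a)) (fun k => f k ((|C3| + 1) * t k) - (|C3| + 1) * t k) (fun j => hnN' _ _)
    (fun k => hD k _ (mul_nonneg hT0 (ht k)))
  have h4 : (|C3| + 1) * ∑ k, (((n a k - n' (e a) k : ℤ) : ℝ)) * t k =
      (∑ k, (n a k : ℝ) * ((|C3| + 1) * t k) - ∑ k, (n' (e a) k : ℝ) * f k ((|C3| + 1) * t k)) +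
      ∑ k, (n' (e a) k : ℝ) * (f k ((|C3| + 1) * t k) - (|C3| + 1) * t k) := by
    rw [Finset.mul_sum, ← Finset.sum_sub_distrib, ← Finset.sum_add_distrib]
    refine Finset.sum_congr rfl fun k _ => ?_
    push_cast
    ring
  have h5 : |(|C3| + 1) * ∑ k, (((n a k - n' (e a) k : ℤ) : ℝ)) * t k| ≤ C3 := by
    rw [h4]
    refine le_trans (abs_add_le _ _) (le_trans (add_le_add h2 h3) hC3.ge)
  rw [abs_mul, abs_of_nonneg hT0] at h5
  have h6 : |C3| + 1 ≤ (|C3| + 1) * |∑ k, (((n a k - n' (e a) k : ℤ) : ℝ)) * t k| := le_mul_of_one_le_right hT0 h1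
  linarith [le_abs_self C3]

end Pool.Agent.Helper25.EN
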