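import Pool.Agent.Helper25.EN.Spec
import Pool.Agent.Helper87.FQ.Ld

/-!
# Project FQ (MP_0f6f3f_an), layer EN (the end): the Levi factor of a node

`lvs_lsub`: the Levi factor `lsub A H` of helper87 is the Levi part of the node `u`, if `al k H = 0` exactly for `k ≠ u`. `adx`: `exp(ad a)` on `lsub A H`. `spec_lsub`: `spec_u` for `lsub`.
-/

set_option autoImplicit false

namespace Pool.Agent.Helper25.EN

open Module Pool.Agent.Helper96.SA Pool.Agent.Helper96.TO Pool.Agent.Helper69.SLN Pool.Agent.Helper77.LA Pool.Agent.Helper77.FQ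
  Pool.Agent.Helper68.FQ Pool.Agent.Helper25.AE Pool.Agent.Helper87.FQ Pool.Agent.Helper2.BC Pool.Agent.Helper35.TZ

variable {L : Type} [LieRing L] [LieAlgebra ℝ L] {N : ℕ} {θ : L ≃ₗ⁅ℝ⁆ L} {b : Module.Basis (Fin N) ℝ L} {A : Submodule ℝ L}
  {τ : Module.Dual ℝ A ≃ₗ[ℝ] A} {ι : Type} {al : ι → Module.Dual ℝ A}

theorem lvs_lsub [Fintype ι] {u : ι} {H : A} (hH : ∀ k, k ≠ u → al k H = 0) (hu : al u H ≠ 0) : LvS A al u (lsub A H).toSubmodule where
  st a x hx := by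
    refine LieSubalgebra.lieSpan_induction (R := ℝ) (L := L) (p := fun x _ => ⁅(a : L), x⁆ ∈ (lsub A H).toSubmodule) ?_ ?_ ?_ ?_ ?_ hx
    · rintro x ⟨φ, h0, hH, hx⟩
      rw [hx a]
      exact Submodule.smul_mem _ _ (LieSubalgebra.subset_lieSpan ⟨φ, h0, hH, hx⟩)
    · rw [lie_zero]
      exact Submodule.zero_mem _
    · intro x y _ _ hx hy
      rw [lie_add]
      exact Submodule.add_mem _ hx hy
    · intro c x _ hx
      rw [lie_smul]
      exact Submodule.smul_mem _ _ hx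
    · intro x y hx hy h1 h2
      rw [leibniz_lie]
      exact Submodule.add_mem _ ((lsub A H).lie_mem h1 hy) ((lsub A H).lie_mem hx h2)
  rt n hn hr x hx := by
    refine LieSubalgebra.subset_lieSpan ⟨_, hr.1, ?_, hx⟩
    rw [LinearMap.sum_apply]
    refine Finset.sum_eq_zero fun k _ => ?_
    rw [LinearMap.smul_apply, smul_eq_mul]
    by_cases hk : k = u
    · rw [hk, hn, Int.cast_zero, zero_mul]
    · rw [hH k hk, mul_zero]
  of n hn x hx hw := by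
    have h1 := comm_lsub hx
    rw [hw H] at h1
    have h2 : (∑ k, (n k : ℝ) • al k) H = n u * al u H := by
      rw [LinearMap.sum_apply, Finset.sum_eq_single u]
      · rfl
      · intro k _ hk
        rw [LinearMap.smul_apply, smul_eq_mul, hH k hk, mul_zero]
      · intro h
        exact absurd (Finset.mem_univ _) h
    rw [h2] at h1
    exact (smul_eq_zero.1 h1).resolve_left (mul_ne_zero (by exact_mod_cast hn) hu)

theorem exp_mulVec_eig {X : Mat N} {v : Fin N → ℝ} {c : ℝ} (h : X.mulVec v = c • v) : (NormedSpace.exp X).mulVec v = Real.exp c • v := by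
  have h1 : HasSum (fun n : ℕ => ((n.factorial : ℝ)⁻¹) • X ^ n) (NormedSpace.exp X) := by
    open scoped Matrix.Norms.Operator in exact NormedSpace.exp_series_hasSum_exp' X
  have h2 := h1.map (AddMonoidHom.mk' (fun M : Mat N => M.mulVec v)
    (fun A B => Matrix.add_mulVec A B _)) (Continuous.matrix_mulVec continuous_id continuous_const)
  have h3 : HasSum (fun n : ℕ => ((n.factorial : ℝ)⁻¹) • c ^ n) (Real.exp c) := by
    rw [Real.exp_eq_exp_ℝ]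
    exact NormedSpace.exp_series_hasSum_exp' c
  have h4 := h3.smul_const v
  have h5 : ∀ n : ℕ, (X ^ n).mulVec v = c ^ n • v := by
    intro n
    induction n with
    | zero => rw [pow_zero, pow_zero, Matrix.one_mulVec, one_smul]
    | succ n ih => rw [pow_succ', ← Matrix.mulVec_mulVec, ih, Matrix.mulVec_smul, h, smul_smul, pow_succ]
  have h6 : ((AddMonoidHom.mk' (fun M : Mat N => M.mulVec v)
      (fun A B => Matrix.add_mulVec A B _)) ∘ fun n : ℕ => ((n.factorial : ℝ)⁻¹) • X ^ n) = fun n : ℕ => (((n.factorial : ℝ)⁻¹) • c ^ n) • v := by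
    funext n
    show (((n.factorial : ℝ)⁻¹) • X ^ n).mulVec v = _
    rw [Matrix.smul_mulVec, h5, smul_assoc]
  rw [h6] at h2
  exact h2.unique h4

/-- The exponential of `ad a` on a weight vector. -/
theorem ac_ex_wv (b : Module.Basis (Fin N) ℝ L) {φ : Module.Dual ℝ A} {x : L} (hx : Wv A φ x) (a : A) :
    ac b (ex (TT_to b (a : L))) x = Real.exp (φ a) • x := by
  have h0 : ∀ M : Mat N, b.equivFun (Matrix.toLin b b M x) = M.mulVec (b.equivFun x) := by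
    intro M
    have h := LinearMap.toMatrix_mulVec_repr b b (Matrix.toLin b b M) x
    rw [LinearMap.toMatrix_toLin] at h
    exact h.symm
  apply b.equivFun.injective
  rw [map_smul]
  refine (h0 _).trans ?_
  refine exp_mulVec_eig ?_
  rw [← h0]
  have h1 : Matrix.toLin b b (TT_to b (a : L)) x = ⁅(a : L), x⁆ := by
    rw [TT_apply_to, Matrix.toLin_toMatrix]
    rfl
  rw [h1, hx a, map_smul]

/-- The element `exp(ad a)` of the centraliser of `H`. -/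
noncomputable def eh (b : Module.Basis (Fin N) ℝ L) (hA : MaxFlat θ A) (H a : A) : Mh b (H : L) := ⟨ex (TT_to b (a : L)), ex_mem_Mh (hA.abel _ H.2 _ a.2)⟩

theorem rs_eh (h : CartanBasis θ b) (hA : MaxFlat θ A) (H a : A) {φ : Module.Dual ℝ A} {x : lsub A H} (hx : Wv A φ (x : L)) :
    rs h hA H (eh b hA H a) x = Real.exp (φ a) • x := by
  apply Subtype.ext
  rw [rs_coe]
  exact ac_ex_wv b hx a

variable {L' : Type} [LieRing L'] [LieAlgebra ℝ L'] {N' : ℕ} {θ' : L' ≃ₗ⁅ℝ⁆ L'} {b' : Module.Basis (Fin N') ℝ L'} {A' : Submodule ℝ L'}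
  {τ' : Module.Dual ℝ A' ≃ₗ[ℝ] A'} {al' : ι → Module.Dual ℝ A'}

/-- **The node `u`**, for the Levi factors. -/
theorem spec_lsub [Fintype ι] (s : SD θ b A τ al) (s' : SD θ' b' A' τ' al') (cm : Cmb A al) (cm' : Cmb A' al') (u : ι) {H : A} {H' : A'}
    (hH : ∀ k, k ≠ u → al k H = 0) (hu : al u H ≠ 0) (hH' : ∀ k, k ≠ u → al' k H' = 0) (hu' : al' u H' ≠ 0)
    (Θ : lsub A H ≃ₗ[ℝ] lsub A' H') (K C : ℝ) (f : ι → ℝ → ℝ)
    (hyp : ∀ c : ι → ℝ, (∀ k, k ≠ u → 0 ≤ c k) → ∃ (a : A) (μ : A') (T U W : lsub A' H' →ₗ[ℝ] lsub A' H'),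
      (∀ k, k ≠ u → al k a = c k) ∧ (∀ k, k ≠ u → 0 ≤ al' k μ) ∧ (∀ k, k ≠ u → |al' k μ - f k (c k)| ≤ C) ∧
      (∀ v, T v = U (rs s'.h s'.hA H' (eh b' s'.hA H' μ) (W v))) ∧
      (∀ v, qf (bS s'.h s'.hA H') (U v) ≤ K * qf (bS s'.h s'.hA H') v) ∧ (∀ v, qf (bS s'.h s'.hA H') v ≤ K * qf (bS s'.h s'.hA H') (U v)) ∧
      (∀ v, qf (bS s'.h s'.hA H') (W v) ≤ K * qf (bS s'.h s'.hA H') v) ∧ (∀ v, qf (bS s'.h s'.hA H') v ≤ K * qf (bS s'.h s'.hA H') (W v)) ∧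
      ∀ v, T (Θ v) = Θ (rs s.h s.hA H (eh b s.hA H a) v)) :
    (∃ D : ℝ, 0 ≤ D ∧ ∀ k, k ≠ u → ∀ t, 0 ≤ t → |f k t - t| ≤ D) ∧
      ∀ n : ι → ℤ, n u = 0 → n ≠ 0 → finrank ℝ (rsp A (∑ k, (n k : ℝ) • al k)) = finrank ℝ (rsp A' (∑ k, (n k : ℝ) • al' k)) := by
  refine spec_u (S := (lsub A H).toSubmodule) (S' := (lsub A' H').toSubmodule) s s' cm cm' u (lvs_lsub hH hu) (lvs_lsub hH' hu') Θ (bS s'.h s'.hA H') K C f fun c hc => ?_
  obtain ⟨a, μ, T, U, W, h1, h2, h3, h4, h5, h6, h7, h8, h9⟩ := hyp c hc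
  exact ⟨a, μ, rs s.h s.hA H (eh b s.hA H a), T, U, rs s'.h s'.hA H' (eh b' s'.hA H' μ), W, h1, h2, h3, fun φ x hx => rs_eh s.h s.hA H a hx,
    fun φ x hx => rs_eh s'.h s'.hA H' μ hx, h4, h5, h6, h7, h8, h9⟩

/-- An orthogonal matrix preserves the form. -/
theorem qf_orth {n : ℕ} {V : Type} [LieRing V] [LieAlgebra ℝ V] (c : Module.Basis (Fin n) ℝ V) {k : GL (Fin n) ℝ}
    (hk : (k : Mat n).transpose * (k : Mat n) = 1) (v : V) : qf c (ac c k v) = qf c v := by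
  have h0 : ∀ i, c.repr (ac c k v) i = (k : Mat n).mulVec (c.equivFun v) i := by
    intro i
    have h := LinearMap.toMatrix_mulVec_repr c c (Matrix.toLin c c (k : Mat n)) v
    rw [LinearMap.toMatrix_toLin] at h
    exact (congrFun h i).symm
  have h1 : ∀ w : Fin n → ℝ, ∑ i, w i ^ 2 = w ⬝ᵥ w := fun w => by
    unfold dotProduct
    exact Finset.sum_congr rfl fun i _ => sq _
  unfold qf
  simp only [h0]
  have h2 : ∑ a, (c.repr v a) ^ 2 = (c.equivFun v) ⬝ᵥ (c.equivFun v) := h1 (c.equivFun v)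
  rw [h1, h2, Matrix.dotProduct_mulVec, Matrix.vecMul_mulVec, hk, Matrix.vecMul_one]

/-- **The node `u`**, for the Levi factors, with matrices. -/
theorem spec_SS [Fintype ι] (s : SD θ b A τ al) (s' : SD θ' b' A' τ' al') (cm : Cmb A al) (cm' : Cmb A' al') (u : ι) {H : A} {H' : A'}
    (hH : ∀ k, k ≠ u → al k H = 0) (hu : al u H ≠ 0) (hH' : ∀ k, k ≠ u → al' k H' = 0) (hu' : al' u H' ≠ 0)
    (Θ : lsub A H ≃ₗ[ℝ] lsub A' H') (C : ℝ) (f : ι → ℝ → ℝ)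
    (hyp : ∀ c : ι → ℝ, (∀ k, k ≠ u → 0 ≤ c k) → ∃ (a : A) (μ : A') (g k1 k2 : GL (Fin (Module.finrank ℝ (lsub A' H'))) ℝ),
      (∀ k, k ≠ u → al k a = c k) ∧ (∀ k, k ≠ u → 0 ≤ al' k μ) ∧ (∀ k, k ≠ u → |al' k μ - f k (c k)| ≤ C) ∧
      g = k1 * res s'.h s'.hA H' (eh b' s'.hA H' μ) * k2 ∧ (k1 : Mat (Module.finrank ℝ (lsub A' H'))).transpose * (k1 : Mat (Module.finrank ℝ (lsub A' H'))) = 1 ∧
      (k2 : Mat (Module.finrank ℝ (lsub A' H'))).transpose * (k2 : Mat (Module.finrank ℝ (lsub A' H'))) = 1 ∧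
      ∀ v, ac (bS s'.h s'.hA H') g (Θ v) = Θ (ac (bS s.h s.hA H) (res s.h s.hA H (eh b s.hA H a)) v)) :
    (∃ D : ℝ, 0 ≤ D ∧ ∀ k, k ≠ u → ∀ t, 0 ≤ t → |f k t - t| ≤ D) ∧
      ∀ n : ι → ℤ, n u = 0 → n ≠ 0 → finrank ℝ (rsp A (∑ k, (n k : ℝ) • al k)) = finrank ℝ (rsp A' (∑ k, (n k : ℝ) • al' k)) := by
  refine spec_lsub s s' cm cm' u hH hu hH' hu' Θ 1 C f fun c hc => ?_
  obtain ⟨a, μ, g, k1, k2, h1, h2, h3, h4, h5, h6, h7⟩ := hyp c hc
  refine ⟨a, μ, ac (bS s'.h s'.hA H') g, ac (bS s'.h s'.hA H') k1, ac (bS s'.h s'.hA H') k2, h1, h2, h3, fun v => ?_, fun v => ?_, fun v => ?_, fun v => ?_,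
    fun v => ?_, fun v => ?_⟩
  · rw [h4, ac_mul, ac_mul, ac_res']
  · rw [qf_orth _ h5, one_mul]
  · rw [qf_orth _ h5, one_mul]
  · rw [qf_orth _ h6, one_mul]
  · rw [qf_orth _ h6, one_mul]
  · rw [h7, ac_res']

end Pool.Agent.Helper25.EN
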