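import Mathlib

/-!
# Project FQ (MP_0f6f3f_an), layer EN (the end): comparison of singular values

`sing_lists`: `Θ : V ≃ V'` a fixed linear isomorphism, `D` diagonal with entries `exp (x a)` in a basis of `V`, `T = U Y W` with `U`, `W` isometries and `Y` diagonal with entries `exp (y b)` in a basis of `V'`. If
`T Θ = Θ D`, then there is a bijection `σ` with `|x a - y (σ a)| ≤ C`, `C` depends only on `Θ` and the bases.
-/

set_option autoImplicit false

namespace Pool.Agent.Helper25.EN

open Finset Module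

variable {A B : Type*} [Fintype A] [Fintype B]

/-- Sorting: counting inequalities give a bijection. -/
theorem exists_equiv_of_count (hAB : Fintype.card A = Fintype.card B) (x : A → ℝ) (y : B → ℝ) (C : ℝ)
    (h1 : ∀ s, Fintype.card {a // s ≤ x a} ≤ Fintype.card {b // s - C ≤ y b})
    (h2 : ∀ s, Fintype.card {a // x a ≤ s} ≤ Fintype.card {b // y b ≤ s + C}) : ∃ σ : A ≃ B, ∀ a, |x a - y (σ a)| ≤ C := by
  classical
  obtain ⟨m, hm⟩ : ∃ m, m = Fintype.card A := ⟨_, rfl⟩
  let eA : Fin m ≃ A := (Fintype.equivFinOfCardEq hm.symm).symm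
  let eB : Fin m ≃ B := (Fintype.equivFinOfCardEq (hAB ▸ hm.symm)).symm
  let pA := Tuple.sort (x ∘ eA)
  let pB := Tuple.sort (y ∘ eB)
  have mA : Monotone (fun i => x (eA (pA i))) := Tuple.monotone_sort (x ∘ eA)
  have mB : Monotone (fun i => y (eB (pB i))) := Tuple.monotone_sort (y ∘ eB)
  refine ⟨(eA.symm.trans pA.symm).trans (pB.trans eB), fun a => ?_⟩
  obtain ⟨i, hi⟩ : ∃ i, eA (pA i) = a := ⟨pA.symm (eA.symm a), by simp⟩
  have hb : ((eA.symm.trans pA.symm).trans (pB.trans eB)) a = eB (pB i) := by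
    rw [← hi]
    simp
  rw [hb, ← hi, abs_le]
  constructor
  · by_contra hlt
    push Not at hlt
    have h3 := h2 (x (eA (pA i)))
    have h4 : (Finset.Iic i).card ≤ Fintype.card {a // x a ≤ x (eA (pA i))} := by
      rw [Fintype.card_subtype, ← Finset.card_image_of_injective (Finset.Iic i) (eA.injective.comp pA.injective)]
      refine Finset.card_le_card fun z hz => ?_
      obtain ⟨j, hj, rfl⟩ := Finset.mem_image.1 hz
      exact Finset.mem_filter.2 ⟨mem_univ _, mA (Finset.mem_Iic.1 hj)⟩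
    have h5 : Fintype.card {b // y b ≤ x (eA (pA i)) + C} ≤ (Finset.Iio i).card := by
      rw [Fintype.card_subtype, ← Finset.card_image_of_injective (Finset.Iio i) (eB.injective.comp pB.injective)]
      refine Finset.card_le_card fun z hz => ?_
      refine Finset.mem_image.2 ⟨pB.symm (eB.symm z), ?_, by simp⟩
      rw [Finset.mem_Iio]
      by_contra hge
      push Not at hge
      have h6 := mB hge
      simp only [Equiv.apply_symm_apply] at h6
      have h7 := (Finset.mem_filter.1 hz).2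
      linarith
    rw [Fin.card_Iic] at h4
    rw [Fin.card_Iio] at h5
    omega
  · by_contra hlt
    push Not at hlt
    have h3 := h1 (x (eA (pA i)))
    have h4 : (Finset.Ici i).card ≤ Fintype.card {a // x (eA (pA i)) ≤ x a} := by
      rw [Fintype.card_subtype, ← Finset.card_image_of_injective (Finset.Ici i) (eA.injective.comp pA.injective)]
      refine Finset.card_le_card fun z hz => ?_
      obtain ⟨j, hj, rfl⟩ := Finset.mem_image.1 hz
      exact Finset.mem_filter.2 ⟨mem_univ _, mA (Finset.mem_Ici.1 hj)⟩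
    have h5 : Fintype.card {b // x (eA (pA i)) - C ≤ y b} ≤ (Finset.Ioi i).card := by
      rw [Fintype.card_subtype, ← Finset.card_image_of_injective (Finset.Ioi i) (eB.injective.comp pB.injective)]
      refine Finset.card_le_card fun z hz => ?_
      refine Finset.mem_image.2 ⟨pB.symm (eB.symm z), ?_, by simp⟩
      rw [Finset.mem_Ioi]
      by_contra hge
      push Not at hge
      have h6 := mB hge
      simp only [Equiv.apply_symm_apply] at h6
      have h7 := (Finset.mem_filter.1 hz).2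
      linarith
    rw [Fin.card_Ici] at h4
    rw [Fin.card_Ioi] at h5
    omega

variable {V V' : Type*} [AddCommGroup V] [Module ℝ V] [AddCommGroup V'] [Module ℝ V']

/-- The quadratic form of a basis. -/
noncomputable def qf (e : Basis A ℝ V) (v : V) : ℝ := ∑ a, (e.repr v a) ^ 2

theorem qf_nonneg (e : Basis A ℝ V) (v : V) : 0 ≤ qf e v := Finset.sum_nonneg fun _ _ => sq_nonneg _

theorem qf_pos (e : Basis A ℝ V) {v : V} (hv : v ≠ 0) : 0 < qf e v := by
  refine lt_of_le_of_ne (qf_nonneg e v) fun h => hv ?_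
  have h1 := (Finset.sum_eq_zero_iff_of_nonneg fun a _ => sq_nonneg (e.repr v a)).1 h.symm
  apply e.repr.injective
  ext a
  have := h1 a (mem_univ a)
  simpa using this

/-- A linear map is bounded. -/
theorem qf_le (e : Basis A ℝ V) (e' : Basis B ℝ V') (Θ : V →ₗ[ℝ] V') : ∃ c : ℝ, 0 < c ∧ ∀ v, qf e' (Θ v) ≤ c * qf e v := by
  refine ⟨∑ b, ∑ a, (e'.repr (Θ (e a)) b) ^ 2 + 1, by positivity, fun v => ?_⟩
  have h1 : ∀ b, (e'.repr (Θ v) b) ^ 2 ≤ (∑ a, (e'.repr (Θ (e a)) b) ^ 2) * qf e v := by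
    intro b
    have h2 : e'.repr (Θ v) b = ∑ a, e'.repr (Θ (e a)) b * e.repr v a := by
      conv_lhs => rw [← e.sum_repr v]
      rw [map_sum, map_sum, Finsupp.finsetSum_apply]
      refine Finset.sum_congr rfl fun a _ => ?_
      rw [map_smul, map_smul, Finsupp.smul_apply, smul_eq_mul, mul_comm]
    rw [h2]
    exact Finset.sum_mul_sq_le_sq_mul_sq _ _ _
  calc qf e' (Θ v) ≤ ∑ b, (∑ a, (e'.repr (Θ (e a)) b) ^ 2) * qf e v := Finset.sum_le_sum fun b _ => h1 b
    _ = (∑ b, ∑ a, (e'.repr (Θ (e a)) b) ^ 2) * qf e v := by rw [Finset.sum_mul]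
    _ ≤ _ := by
      rw [add_mul, one_mul]
      linarith [qf_nonneg e v]

/-- The counting inequality. -/
theorem count_le (e : Basis A ℝ V) (e' : Basis B ℝ V') (Θ : V →ₗ[ℝ] V') {c1 c2 : ℝ} (hc1 : 0 < c1) (hc2 : 0 < c2)
    (h1 : ∀ v, qf e' (Θ v) ≤ c1 * qf e v) (h2 : ∀ v, qf e v ≤ c2 * qf e' (Θ v)) (x : A → ℝ) (y : B → ℝ) (D : V →ₗ[ℝ] V) (T W : V' →ₗ[ℝ] V')
    (hD : ∀ a, D (e a) = Real.exp (x a) • e a) (hT : ∀ v, qf e' (T v) = ∑ b, (Real.exp (y b) * e'.repr (W v) b) ^ 2)
    (hW : ∀ v, qf e' (W v) = qf e' v) (hTD : ∀ v, T (Θ v) = Θ (D v)) (s : ℝ) :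
    Fintype.card {a // s ≤ x a} ≤ Fintype.card {b // s - Real.log (c1 * c2) / 2 ≤ y b} := by
  classical
  by_contra hlt
  push Not at hlt
  obtain ⟨s', hs'⟩ : ∃ s', s' = s - Real.log (c1 * c2) / 2 := ⟨_, rfl⟩
  rw [← hs'] at hlt
  let F : ({a // s ≤ x a} → ℝ) →ₗ[ℝ] V :=
    { toFun := fun c => ∑ a, c a • e a.1
      map_add' := fun c d => by simp [add_smul, Finset.sum_add_distrib]
      map_smul' := fun r c => by simp [Finset.smul_sum, mul_smul] }
  let G : ({a // s ≤ x a} → ℝ) →ₗ[ℝ] ({b // s' ≤ y b} → ℝ) :=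
    { toFun := fun c b => e'.repr (W (Θ (F c))) b.1
      map_add' := fun c d => by
        funext b
        simp [map_add]
      map_smul' := fun r c => by
        funext b
        simp [map_smul] }
  have hker : LinearMap.ker G ≠ ⊥ := by
    apply LinearMap.ker_ne_bot_of_finrank_lt
    rw [Module.finrank_fintype_fun_eq_card, Module.finrank_fintype_fun_eq_card]
    exact hlt
  obtain ⟨c, hc, hc0⟩ := (Submodule.ne_bot_iff _).1 hker
  have hG : ∀ b, s' ≤ y b → e'.repr (W (Θ (F c))) b = 0 := fun b hb => congrFun (LinearMap.mem_ker.1 hc) ⟨b, hb⟩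
  have hrepr : ∀ a, e.repr (F c) a = if h : s ≤ x a then c ⟨a, h⟩ else 0 := by
    intro a
    have h3 : F c = ∑ a, c a • e a.1 := rfl
    rw [h3, map_sum, Finsupp.finsetSum_apply]
    simp only [map_smul, Basis.repr_self, Finsupp.smul_apply, smul_eq_mul]
    split_ifs with h
    · rw [Finset.sum_eq_single ⟨a, h⟩]
      · simp
      · intro a' _ ha'
        rw [Finsupp.single_eq_of_ne, mul_zero]
        intro h4
        exact ha' (Subtype.ext h4.symm)
      · intro h4
        exact absurd (mem_univ _) h4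
    · refine Finset.sum_eq_zero fun a' _ => ?_
      rw [Finsupp.single_eq_of_ne, mul_zero]
      intro h4
      exact h (h4 ▸ a'.2)
  have hF : F c ≠ 0 := by
    intro h
    apply hc0
    funext a
    have h3 := hrepr a.1
    rw [h, dif_pos a.2] at h3
    simpa using h3.symm
  have hDr : ∀ v a, e.repr (D v) a = Real.exp (x a) * e.repr v a := by
    intro v a
    conv_lhs => rw [← e.sum_repr v]
    rw [map_sum, map_sum, Finsupp.finsetSum_apply, Finset.sum_eq_single a]
    · rw [map_smul, map_smul, hD, map_smul, e.repr_self]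
      simp [mul_comm]
    · intro a' _ ha'
      rw [map_smul, map_smul, hD, map_smul, e.repr_self]
      simp [Finsupp.single_eq_of_ne ha'.symm]
    · intro h
      exact absurd (mem_univ _) h
  have hq1 : Real.exp (2 * s) * qf e (F c) ≤ qf e (D (F c)) := by
    unfold qf
    rw [Finset.mul_sum]
    refine Finset.sum_le_sum fun a _ => ?_
    rw [hDr, mul_pow]
    by_cases h : s ≤ x a
    · refine mul_le_mul_of_nonneg_right ?_ (sq_nonneg _)
      rw [← Real.exp_nat_mul]
      apply Real.exp_le_exp.2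
      push_cast
      linarith
    · rw [hrepr, dif_neg h]
      simp
  have hΘF : Θ (F c) ≠ 0 := by
    intro h
    have h3 := h2 (F c)
    rw [h] at h3
    have h4 := qf_pos e hF
    have h5 : qf e' (0 : V') = 0 := by simp [qf]
    rw [h5, mul_zero] at h3
    linarith
  have hq2 : qf e' (T (Θ (F c))) < Real.exp (2 * s') * qf e' (Θ (F c)) := by
    rw [hT, ← hW (Θ (F c))]
    unfold qf
    rw [Finset.mul_sum]
    have hW0 : ∃ b, e'.repr (W (Θ (F c))) b ≠ 0 := by
      by_contra h
      push Not at h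
      have h3 : qf e' (W (Θ (F c))) = 0 := by
        unfold qf
        exact Finset.sum_eq_zero fun b _ => by rw [h b]; ring
      rw [hW] at h3
      exact absurd h3 (qf_pos e' hΘF).ne'
    obtain ⟨b0, hb0⟩ := hW0
    refine Finset.sum_lt_sum (fun b _ => ?_) ⟨b0, mem_univ _, ?_⟩
    · by_cases h : s' ≤ y b
      · rw [hG b h]
        simp
      · rw [mul_pow]
        refine mul_le_mul_of_nonneg_right ?_ (sq_nonneg _)
        rw [← Real.exp_nat_mul]
        apply Real.exp_le_exp.2
        push_cast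
        linarith
    · have h : ¬ s' ≤ y b0 := fun h => hb0 (hG b0 h)
      rw [mul_pow]
      refine mul_lt_mul_of_pos_right ?_ (by positivity)
      rw [← Real.exp_nat_mul]
      apply Real.exp_lt_exp.2
      push_cast
      push Not at h
      linarith
  have h3 := h2 (D (F c))
  rw [← hTD] at h3
  have h4 := h1 (F c)
  have hlog : Real.exp (2 * s') * (c1 * c2) = Real.exp (2 * s) := by
    rw [hs']
    have h5 : 0 < c1 * c2 := by positivity
    conv_lhs => rw [← Real.exp_log h5]
    rw [Real.log_exp, ← Real.exp_add]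
    congr 1
    ring
  have h6 : c2 * (Real.exp (2 * s') * qf e' (Θ (F c))) ≤ c2 * (Real.exp (2 * s') * (c1 * qf e (F c))) := by
    refine mul_le_mul_of_nonneg_left (mul_le_mul_of_nonneg_left h4 (Real.exp_pos _).le) hc2.le
  have h7 : c2 * qf e' (T (Θ (F c))) < c2 * (Real.exp (2 * s') * qf e' (Θ (F c))) := mul_lt_mul_of_pos_left hq2 hc2
  have h8 : c2 * (Real.exp (2 * s') * (c1 * qf e (F c))) = Real.exp (2 * s) * qf e (F c) := by
    rw [← hlog]
    ring
  linarith

/-- The form of a diagonal operator. -/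
theorem diag_repr (e : Basis A ℝ V) {x : A → ℝ} {D : V →ₗ[ℝ] V} (hD : ∀ a, D (e a) = Real.exp (x a) • e a) (v : V) (a : A) :
    e.repr (D v) a = Real.exp (x a) * e.repr v a := by
  classical
  conv_lhs => rw [← e.sum_repr v]
  rw [map_sum, map_sum, Finsupp.finsetSum_apply, Finset.sum_eq_single a]
  · rw [map_smul, map_smul, hD, map_smul, e.repr_self]
    simp [mul_comm]
  · intro a' _ ha'
    rw [map_smul, map_smul, hD, map_smul, e.repr_self]
    simp [Finsupp.single_eq_of_ne ha'.symm]
  · intro h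
    exact absurd (mem_univ _) h

/-- An isometry is bijective. -/
theorem exists_inv (e : Basis A ℝ V) {U : V →ₗ[ℝ] V} (hU : ∀ v, qf e (U v) = qf e v) : ∃ U' : V →ₗ[ℝ] V, (∀ v, U' (U v) = v) ∧
    (∀ v, U (U' v) = v) ∧ ∀ v, qf e (U' v) = qf e v := by
  have : FiniteDimensional ℝ V := e.finiteDimensional_of_finite
  have hinj : Function.Injective U := by
    rw [← LinearMap.ker_eq_bot, Submodule.eq_bot_iff]
    intro v hv
    by_contra h
    have h1 := qf_pos e h
    rw [← hU, LinearMap.mem_ker.1 hv] at h1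
    simp [qf] at h1
  let E := LinearEquiv.ofInjectiveEndo U hinj
  have hE : ∀ v, E v = U v := fun v => rfl
  refine ⟨E.symm.toLinearMap, fun v => ?_, fun v => ?_, fun v => ?_⟩
  · exact E.symm_apply_apply v
  · exact E.apply_symm_apply v
  · have h1 := hU (E.symm v)
    have h2 : U (E.symm v) = v := E.apply_symm_apply v
    rw [h2] at h1
    exact h1.symm

/-- **Comparison of singular values.** -/
theorem sing_lists (e : Basis A ℝ V) (e' : Basis B ℝ V') (Θ : V ≃ₗ[ℝ] V') : ∃ C : ℝ, ∀ (x : A → ℝ) (y : B → ℝ) (D : V →ₗ[ℝ] V)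
    (T U Y W : V' →ₗ[ℝ] V'), (∀ a, D (e a) = Real.exp (x a) • e a) → (∀ b, Y (e' b) = Real.exp (y b) • e' b) → (∀ v, T v = U (Y (W v))) →
    (∀ v, qf e' (U v) = qf e' v) → (∀ v, qf e' (W v) = qf e' v) → (∀ v, T (Θ v) = Θ (D v)) → ∃ σ : A ≃ B, ∀ a, |x a - y (σ a)| ≤ C := by
  have : FiniteDimensional ℝ V := e.finiteDimensional_of_finite
  have : FiniteDimensional ℝ V' := e'.finiteDimensional_of_finite
  obtain ⟨c1, hc1, h1⟩ := qf_le e e' Θ.toLinearMap
  obtain ⟨c2, hc2, h2⟩ := qf_le e' e Θ.symm.toLinearMap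
  have h2' : ∀ v, qf e v ≤ c2 * qf e' (Θ v) := fun v => by
    have := h2 (Θ v)
    simpa using this
  refine ⟨Real.log (c1 * c2) / 2, fun x y D T U Y W hD hY hT hU hW hTD => ?_⟩
  have hAB : Fintype.card A = Fintype.card B := by
    rw [← Module.finrank_eq_card_basis e, ← Module.finrank_eq_card_basis e']
    exact Θ.finrank_eq
  obtain ⟨U', hU1, hU2, hU3⟩ := exists_inv e' hU
  obtain ⟨W', hW1, hW2, hW3⟩ := exists_inv e' hW
  let D' : V →ₗ[ℝ] V := e.constr ℝ fun a => Real.exp (-x a) • e a
  let Y' : V' →ₗ[ℝ] V' := e'.constr ℝ fun b => Real.exp (-y b) • e' b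
  have hD' : ∀ a, D' (e a) = Real.exp (-x a) • e a := fun a => Basis.constr_basis _ _ _ _
  have hY' : ∀ b, Y' (e' b) = Real.exp (-y b) • e' b := fun b => Basis.constr_basis _ _ _ _
  have hDD : ∀ v, D (D' v) = v := fun v => by
    apply e.repr.injective
    ext a
    rw [diag_repr e hD, diag_repr e (x := fun a => -x a) hD', ← mul_assoc, ← Real.exp_add]
    simp
  have hYY : ∀ v, Y' (Y v) = v := fun v => by
    apply e'.repr.injective
    ext a
    rw [diag_repr e' (x := fun b => -y b) hY', diag_repr e' hY, ← mul_assoc, ← Real.exp_add]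
    simp
  have hT' : ∀ v, W' (Y' (U' (T v))) = v := fun v => by
    rw [hT, hU1, hYY, hW1]
  have hTD' : ∀ v, (W' ∘ₗ Y' ∘ₗ U') (Θ v) = Θ (D' v) := fun v => by
    have h3 : Θ v = T (Θ (D' v)) := by rw [hTD, hDD]
    show W' (Y' (U' (Θ v))) = _
    rw [h3, hT']
  refine exists_equiv_of_count hAB x y _ (fun s => ?_) (fun s => ?_)
  · exact count_le e e' Θ.toLinearMap hc1 hc2 h1 h2' x y D T W hD (fun v => by
      rw [hT, hU]
      unfold qf
      exact Finset.sum_congr rfl fun b _ => by rw [diag_repr e' hY]) hW hTD s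
  · have h4 := count_le e e' Θ.toLinearMap hc1 hc2 h1 h2' (fun a => -x a) (fun b => -y b) D' (W' ∘ₗ Y' ∘ₗ U') U' hD' (fun v => by
      show qf e' (W' (Y' (U' v))) = _
      rw [hW3]
      unfold qf
      exact Finset.sum_congr rfl fun b _ => by rw [diag_repr e' (x := fun b => -y b) hY']) hU3 hTD' (-s)
    have h5 : Fintype.card {a // x a ≤ s} = Fintype.card {a // -s ≤ -x a} :=
      Fintype.card_congr (Equiv.subtypeEquivRight fun a => by constructor <;> intro h <;> linarith)
    have h6 : Fintype.card {b // y b ≤ s + Real.log (c1 * c2) / 2} = Fintype.card {b // -s - Real.log (c1 * c2) / 2 ≤ -y b} :=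
      Fintype.card_congr (Equiv.subtypeEquivRight fun a => by constructor <;> intro h <;> linarith)
    rw [h5, h6]
    exact h4

end Pool.Agent.Helper25.EN
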