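import Pool.Agent.Helper25.EN.Sing

/-!
# Project FQ (MP_0f6f3f_an), layer EN (the end): comparison of singular values, bounded version

`sing_lists2`: as `sing_lists`, but `U`, `W` are only bounded with bounded inverses, with respect to any basis `q`.
-/

set_option autoImplicit false

namespace Pool.Agent.Helper25.EN

open Module Finset

variable {A B B' V V' : Type*} [Fintype A] [Fintype B] [Fintype B'] [AddCommGroup V] [Module ℝ V] [AddCommGroup V'] [Module ℝ V']

/-- The counting inequality. -/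
theorem count_le2 (e : Basis A ℝ V) (e' : Basis B ℝ V') (Θ : V →ₗ[ℝ] V') {c1 c2 K : ℝ} (hc1 : 0 < c1) (hc2 : 0 < c2) (hK : 0 < K)
    (h1 : ∀ v, qf e' (Θ v) ≤ c1 * qf e v) (h2 : ∀ v, qf e v ≤ c2 * qf e' (Θ v)) (x : A → ℝ) (y : B → ℝ) (D : V →ₗ[ℝ] V) (T W : V' →ₗ[ℝ] V')
    (hD : ∀ a, D (e a) = Real.exp (x a) • e a) (hT : ∀ v, qf e' (T v) ≤ K * ∑ b, (Real.exp (y b) * e'.repr (W v) b) ^ 2)
    (hW : ∀ v, qf e' (W v) ≤ K * qf e' v) (hWi : ∀ v, W v = 0 → v = 0) (hTD : ∀ v, T (Θ v) = Θ (D v)) (s : ℝ) :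
    Fintype.card {a // s ≤ x a} ≤ Fintype.card {b // s - Real.log (c1 * c2 * (K * K)) / 2 ≤ y b} := by
  classical
  by_contra hlt
  push Not at hlt
  obtain ⟨s', hs'⟩ : ∃ s', s' = s - Real.log (c1 * c2 * (K * K)) / 2 := ⟨_, rfl⟩
  rw [← hs'] at hlt
  let F : ({a // s ≤ x a} → ℝ) →ₗ[ℝ] V :=
    { toFun := fun c => ∑ a, c a • e a.1
      map_add' := fun c d => by simp [add_smul, Finset.sum_add_distrib]
      map_smul' := fun r c => by simp [Finset.smul_sum, mul_smul] }
  let G : ({a // s ≤ x a} → ℝ) →ₗ[ℝ] ({b // s' ≤ y b} → ℝ) :=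
    { toFun := fun c b => e'.repr (W (Θ (F c))) b.1
      map_add' := fun c d => by
        funext b
        simp [map_add]
      map_smul' := fun r c => by
        funext b
        simp [map_smul] }
  have hker : LinearMap.ker G ≠ ⊥ := by
    apply LinearMap.ker_ne_bot_of_finrank_lt
    rw [Module.finrank_fintype_fun_eq_card, Module.finrank_fintype_fun_eq_card]
    exact hlt
  obtain ⟨c, hc, hc0⟩ := (Submodule.ne_bot_iff _).1 hker
  have hG : ∀ b, s' ≤ y b → e'.repr (W (Θ (F c))) b = 0 := fun b hb => congrFun (LinearMap.mem_ker.1 hc) ⟨b, hb⟩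
  have hrepr : ∀ a, e.repr (F c) a = if h : s ≤ x a then c ⟨a, h⟩ else 0 := by
    intro a
    have h3 : F c = ∑ a, c a • e a.1 := rfl
    rw [h3, map_sum, Finsupp.finsetSum_apply]
    simp only [map_smul, Basis.repr_self, Finsupp.smul_apply, smul_eq_mul]
    split_ifs with h
    · rw [Finset.sum_eq_single ⟨a, h⟩]
      · simp
      · intro a' _ ha'
        rw [Finsupp.single_eq_of_ne, mul_zero]
        intro h4
        exact ha' (Subtype.ext h4.symm)
      · intro h4
        exact absurd (mem_univ _) h4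
    · refine Finset.sum_eq_zero fun a' _ => ?_
      rw [Finsupp.single_eq_of_ne, mul_zero]
      intro h4
      exact h (h4 ▸ a'.2)
  have hF : F c ≠ 0 := by
    intro h
    apply hc0
    funext a
    have h3 := hrepr a.1
    rw [h, dif_pos a.2] at h3
    simpa using h3.symm
  have hq1 : Real.exp (2 * s) * qf e (F c) ≤ qf e (D (F c)) := by
    unfold qf
    rw [Finset.mul_sum]
    refine Finset.sum_le_sum fun a _ => ?_
    rw [diag_repr e hD, mul_pow]
    by_cases h : s ≤ x a
    · refine mul_le_mul_of_nonneg_right ?_ (sq_nonneg _)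
      rw [← Real.exp_nat_mul]
      apply Real.exp_le_exp.2
      push_cast
      linarith
    · rw [hrepr, dif_neg h]
      simp
  have hΘF : Θ (F c) ≠ 0 := by
    intro h
    have h3 := h2 (F c)
    rw [h] at h3
    have h4 := qf_pos e hF
    have h5 : qf e' (0 : V') = 0 := by simp [qf]
    rw [h5, mul_zero] at h3
    linarith
  have hq2 : qf e' (T (Θ (F c))) < K * (Real.exp (2 * s') * (K * qf e' (Θ (F c)))) := by
    refine lt_of_le_of_lt (hT _) ?_
    refine lt_of_lt_of_le (b := K * (Real.exp (2 * s') * qf e' (W (Θ (F c))))) ?_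
      (mul_le_mul_of_nonneg_left (mul_le_mul_of_nonneg_left (hW _) (Real.exp_pos _).le) hK.le)
    refine mul_lt_mul_of_pos_left ?_ hK
    unfold qf
    rw [Finset.mul_sum]
    have hW0 : ∃ b, e'.repr (W (Θ (F c))) b ≠ 0 := by
      by_contra h
      push Not at h
      have h3 : W (Θ (F c)) = 0 := by
        apply e'.repr.injective
        ext b
        rw [h b, map_zero]
        rfl
      exact hΘF (hWi _ h3)
    obtain ⟨b0, hb0⟩ := hW0
    refine Finset.sum_lt_sum (fun b _ => ?_) ⟨b0, mem_univ _, ?_⟩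
    · by_cases h : s' ≤ y b
      · rw [hG b h]
        simp
      · rw [mul_pow]
        refine mul_le_mul_of_nonneg_right ?_ (sq_nonneg _)
        rw [← Real.exp_nat_mul]
        apply Real.exp_le_exp.2
        push_cast
        linarith
    · have h : ¬ s' ≤ y b0 := fun h => hb0 (hG b0 h)
      rw [mul_pow]
      refine mul_lt_mul_of_pos_right ?_ (by positivity)
      rw [← Real.exp_nat_mul]
      apply Real.exp_lt_exp.2
      push_cast
      push Not at h
      linarith
  have h3 := h2 (D (F c))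
  rw [← hTD] at h3
  have h4 := h1 (F c)
  have hlog : Real.exp (2 * s') * (c1 * c2 * (K * K)) = Real.exp (2 * s) := by
    rw [hs']
    have h5 : 0 < c1 * c2 * (K * K) := by positivity
    conv_lhs => rw [← Real.exp_log h5]
    rw [Real.log_exp, ← Real.exp_add]
    congr 1
    ring
  have h6 : c2 * (K * (Real.exp (2 * s') * (K * qf e' (Θ (F c))))) ≤ c2 * (K * (Real.exp (2 * s') * (K * (c1 * qf e (F c))))) :=
    mul_le_mul_of_nonneg_left (mul_le_mul_of_nonneg_left (mul_le_mul_of_nonneg_left (mul_le_mul_of_nonneg_left h4 hK.le) (Real.exp_pos _).le) hK.le) hc2.le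
  have h7 : c2 * qf e' (T (Θ (F c))) < c2 * (K * (Real.exp (2 * s') * (K * qf e' (Θ (F c))))) := mul_lt_mul_of_pos_left hq2 hc2
  have h8 : c2 * (K * (Real.exp (2 * s') * (K * (c1 * qf e (F c))))) = Real.exp (2 * s) * qf e (F c) := by
    rw [← hlog]
    ring
  linarith

/-- The inverse of a bounded operator which is bounded from below. -/
theorem exists_inv2 (e : Basis A ℝ V) {K : ℝ} {U : V →ₗ[ℝ] V} (hU : ∀ v, qf e v ≤ K * qf e (U v)) : ∃ U' : V →ₗ[ℝ] V, (∀ v, U' (U v) = v) ∧
    (∀ v, U (U' v) = v) ∧ ∀ v, qf e (U' v) ≤ K * qf e v := by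
  have : FiniteDimensional ℝ V := e.finiteDimensional_of_finite
  have hinj : Function.Injective U := by
    rw [← LinearMap.ker_eq_bot, Submodule.eq_bot_iff]
    intro v hv
    by_contra h
    have h1 := qf_pos e h
    have h2 := hU v
    rw [LinearMap.mem_ker.1 hv] at h2
    simp [qf] at h2
    unfold qf at h1
    linarith
  let E := LinearEquiv.ofInjectiveEndo U hinj
  have hE : ∀ v, E v = U v := fun v => rfl
  refine ⟨E.symm.toLinearMap, fun v => ?_, fun v => ?_, fun v => ?_⟩
  · exact E.symm_apply_apply v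
  · exact E.apply_symm_apply v
  · have h1 := hU (E.symm v)
    have h2 : U (E.symm v) = v := E.apply_symm_apply v
    rw [h2] at h1
    exact h1

/-- **Comparison of singular values**, bounded version. -/
theorem sing_lists2 (e : Basis A ℝ V) (e' : Basis B ℝ V') (q : Basis B' ℝ V') (Θ : V ≃ₗ[ℝ] V') (K : ℝ) :
    ∃ C : ℝ, ∀ (x : A → ℝ) (y : B → ℝ) (D : V →ₗ[ℝ] V)
    (T U Y W : V' →ₗ[ℝ] V'), (∀ a, D (e a) = Real.exp (x a) • e a) → (∀ b, Y (e' b) = Real.exp (y b) • e' b) → (∀ v, T v = U (Y (W v))) →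
    (∀ v, qf q (U v) ≤ K * qf q v) → (∀ v, qf q v ≤ K * qf q (U v)) → (∀ v, qf q (W v) ≤ K * qf q v) → (∀ v, qf q v ≤ K * qf q (W v)) →
    (∀ v, T (Θ v) = Θ (D v)) → ∃ σ : A ≃ B, ∀ a, |x a - y (σ a)| ≤ C := by
  have : FiniteDimensional ℝ V := e.finiteDimensional_of_finite
  have : FiniteDimensional ℝ V' := e'.finiteDimensional_of_finite
  obtain ⟨c1, hc1, h1⟩ := qf_le e e' Θ.toLinearMap
  obtain ⟨c2, hc2, h2⟩ := qf_le e' e Θ.symm.toLinearMap
  obtain ⟨d1, hd1, g1⟩ := qf_le q e' LinearMap.id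
  obtain ⟨d2, hd2, g2⟩ := qf_le e' q LinearMap.id
  have h2' : ∀ v, qf e v ≤ c2 * qf e' (Θ v) := fun v => by
    have := h2 (Θ v)
    simpa using this
  have hK1 : 0 < d1 * ((|K| + 1) * d2) := by positivity
  have tr : ∀ U U' : V' →ₗ[ℝ] V', (∀ v, qf q (U v) ≤ K * qf q (U' v)) → ∀ v, qf e' (U v) ≤ d1 * ((|K| + 1) * d2) * qf e' (U' v) := by
    intro U U' hU v
    calc qf e' (U v) ≤ d1 * qf q (U v) := g1 _
      _ ≤ d1 * (K * qf q (U' v)) := mul_le_mul_of_nonneg_left (hU v) hd1.le
      _ ≤ d1 * ((|K| + 1) * qf q (U' v)) := by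
          refine mul_le_mul_of_nonneg_left (mul_le_mul_of_nonneg_right ?_ (qf_nonneg _ _)) hd1.le
          have := le_abs_self K
          linarith
      _ ≤ d1 * ((|K| + 1) * (d2 * qf e' (U' v))) := by
          refine mul_le_mul_of_nonneg_left (mul_le_mul_of_nonneg_left (g2 _) (by positivity)) hd1.le
      _ = d1 * ((|K| + 1) * d2) * qf e' (U' v) := by ring
  obtain ⟨K1, hK1'⟩ : ∃ K1 : ℝ, K1 = d1 * ((|K| + 1) * d2) := ⟨_, rfl⟩
  rw [← hK1'] at hK1 tr
  refine ⟨Real.log (c1 * c2 * (K1 * K1)) / 2, fun x y D T U Y W hD hY hT hU hU' hW hW' hTD => ?_⟩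
  have hAB : Fintype.card A = Fintype.card B := by
    rw [← Module.finrank_eq_card_basis e, ← Module.finrank_eq_card_basis e']
    exact Θ.finrank_eq
  have hU := tr U LinearMap.id hU
  have hU' := tr LinearMap.id U hU'
  have hW := tr W LinearMap.id hW
  have hW' := tr LinearMap.id W hW'
  simp only [LinearMap.id_coe, id_eq] at hU hU' hW hW'
  obtain ⟨U', hU1, hU2, hU3⟩ := exists_inv2 e' hU'
  obtain ⟨W', hW1, hW2, hW3⟩ := exists_inv2 e' hW'
  let D' : V →ₗ[ℝ] V := e.constr ℝ fun a => Real.exp (-x a) • e a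
  let Y' : V' →ₗ[ℝ] V' := e'.constr ℝ fun b => Real.exp (-y b) • e' b
  have hD' : ∀ a, D' (e a) = Real.exp (-x a) • e a := fun a => Basis.constr_basis _ _ _ _
  have hY' : ∀ b, Y' (e' b) = Real.exp (-y b) • e' b := fun b => Basis.constr_basis _ _ _ _
  have hDD : ∀ v, D (D' v) = v := fun v => by
    apply e.repr.injective
    ext a
    rw [diag_repr e hD, diag_repr e (x := fun a => -x a) hD', ← mul_assoc, ← Real.exp_add]
    simp
  have hYY : ∀ v, Y' (Y v) = v := fun v => by
    apply e'.repr.injective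
    ext a
    rw [diag_repr e' (x := fun b => -y b) hY', diag_repr e' hY, ← mul_assoc, ← Real.exp_add]
    simp
  have hT' : ∀ v, W' (Y' (U' (T v))) = v := fun v => by
    rw [hT, hU1, hYY, hW1]
  have hTD' : ∀ v, (W' ∘ₗ Y' ∘ₗ U') (Θ v) = Θ (D' v) := fun v => by
    have h3 : Θ v = T (Θ (D' v)) := by rw [hTD, hDD]
    show W' (Y' (U' (Θ v))) = _
    rw [h3, hT']
  refine exists_equiv_of_count hAB x y _ (fun s => ?_) (fun s => ?_)
  · exact count_le2 e e' Θ.toLinearMap hc1 hc2 hK1 h1 h2' x y D T W hD (fun v => by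
      rw [hT]
      refine (hU _).trans (le_of_eq ?_)
      unfold qf
      congr 1
      exact Finset.sum_congr rfl fun b _ => by rw [diag_repr e' hY]) hW (fun v hv => by
        rw [← hW1 v, hv, map_zero]) hTD s
  · have h4 := count_le2 e e' Θ.toLinearMap hc1 hc2 hK1 h1 h2' (fun a => -x a) (fun b => -y b) D' (W' ∘ₗ Y' ∘ₗ U') U' hD' (fun v => by
      show qf e' (W' (Y' (U' v))) ≤ _
      refine (hW3 _).trans (le_of_eq ?_)
      unfold qf
      congr 1
      exact Finset.sum_congr rfl fun b _ => by rw [diag_repr e' (x := fun b => -y b) hY']) hU3 (fun v hv => by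
        rw [← hU2 v, hv, map_zero]) hTD' (-s)
    have h5 : Fintype.card {a // x a ≤ s} = Fintype.card {a // -s ≤ -x a} :=
      Fintype.card_congr (Equiv.subtypeEquivRight fun a => by constructor <;> intro h <;> linarith)
    have h6 : Fintype.card {b // y b ≤ s + Real.log (c1 * c2 * (K1 * K1)) / 2} = Fintype.card {b // -s - Real.log (c1 * c2 * (K1 * K1)) / 2 ≤ -y b} :=
      Fintype.card_congr (Equiv.subtypeEquivRight fun a => by constructor <;> intro h <;> linarith)
    rw [h5, h6]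
    exact h4

end Pool.Agent.Helper25.EN
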