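import Pool.Agent.Helper68.FQ.Eb
import Pool.Agent.Helper77.FQ.Wt

/-!
# Project FQ (MP_0f6f3f_an), layer EN (the end): weight bases of stable subspaces

`exists_wb`: a subspace `S` of `L` which is stable under `A` has a basis of weight vectors. `Wb.finrank_rsp`: the dimension of a root space which is contained in `S`.
-/

set_option autoImplicit false

namespace Pool.Agent.Helper25.EN

open Module Pool.Agent.Helper96.SA Pool.Agent.Helper96.TO Pool.Agent.Helper69.SLN Pool.Agent.Helper77.LA Pool.Agent.Helper77.FQ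

variable {L : Type} [LieRing L] [LieAlgebra ℝ L] {N : ℕ} {θ : L ≃ₗ⁅ℝ⁆ L} {b : Module.Basis (Fin N) ℝ L} {A : Submodule ℝ L}
  {κ : Type}

/-- The components of an element of a stable subspace. -/
theorem comp_mem {S : Submodule ℝ L} (hS : ∀ a : A, ∀ x ∈ S, ⁅(a : L), x⁆ ∈ S) (n : ℕ) : ∀ (T : Finset (Module.Dual ℝ A)) (x : Module.Dual ℝ A → L),
    T.card = n → (∀ χ ∈ T, Wv A χ (x χ)) → ∑ χ ∈ T, x χ ∈ S → ∀ φ ∈ T, x φ ∈ S := by
  classical
  induction n with
  | zero =>
    intro T x hT _ _ φ hφ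
    rw [Finset.card_eq_zero] at hT
    rw [hT] at hφ
    exact absurd hφ (Finset.notMem_empty _)
  | succ n ih =>
    intro T x hT hx hs φ hφ
    by_cases h1 : ∃ ψ ∈ T, ψ ≠ φ
    · obtain ⟨ψ, hψ, hne⟩ := h1
      obtain ⟨a, ha⟩ : ∃ a, φ a - ψ a ≠ 0 := by
        by_contra h2
        push Not at h2
        exact hne (LinearMap.ext fun a => (sub_eq_zero.1 (h2 a)).symm)
      have h3 : ∑ χ ∈ T.erase ψ, (χ a - ψ a) • x χ ∈ S := by
        have h4 : ∑ χ ∈ T.erase ψ, (χ a - ψ a) • x χ = ∑ χ ∈ T, (χ a - ψ a) • x χ := by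
          refine Finset.sum_erase _ ?_
          rw [sub_self, zero_smul]
        have h5 : ∑ χ ∈ T, (χ a - ψ a) • x χ = ⁅(a : L), ∑ χ ∈ T, x χ⁆ - ψ a • ∑ χ ∈ T, x χ := by
          rw [lie_sum, Finset.smul_sum, ← Finset.sum_sub_distrib]
          refine Finset.sum_congr rfl fun χ hχ => ?_
          rw [hx χ hχ a, sub_smul]
        rw [h4, h5]
        exact S.sub_mem (hS a _ hs) (S.smul_mem _ hs)
      have h6 := ih (T.erase ψ) (fun χ => (χ a - ψ a) • x χ) (by rw [Finset.card_erase_of_mem hψ, hT]; rfl) (fun χ hχ c => by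
        rw [lie_smul, hx χ (Finset.mem_of_mem_erase hχ) c, smul_comm]) h3 φ (Finset.mem_erase.2 ⟨hne.symm, hφ⟩)
      exact (S.smul_mem_iff ha).1 h6
    · push Not at h1
      have h2 : T = {φ} := Finset.eq_singleton_iff_unique_mem.2 ⟨hφ, h1⟩
      rw [h2, Finset.sum_singleton] at hs
      exact hs

/-- A basis of weight vectors of a subspace. -/
def Wb (A : Submodule ℝ L) (S : Submodule ℝ L) (e : Module.Basis κ ℝ S) (wt : κ → Module.Dual ℝ A) : Prop := ∀ k, Wv A (wt k) (e k : L)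

theorem exists_wb (h : CartanBasis θ b) (hA : MaxFlat θ A) {S : Submodule ℝ L} (hS : ∀ a : A, ∀ x ∈ S, ⁅(a : L), x⁆ ∈ S) :
    ∃ (n : ℕ) (e : Module.Basis (Fin n) ℝ S) (wt : Fin n → Module.Dual ℝ A), Wb A S e wt := by
  have hF : Module.Finite ℝ L := Module.Finite.of_basis b
  obtain ⟨P, h1, h2, h3⟩ := exists_wproj h hA
  have hs : Submodule.span ℝ {x : S | ∃ φ : Module.Dual ℝ A, Wv A φ (x : L)} = ⊤ := by
    rw [eq_top_iff]
    rintro ⟨x, hx⟩ -
    have hfin := (roots_finite b hA).insert (0 : Module.Dual ℝ A)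
    have h4 : ∑ φ ∈ hfin.toFinset, P φ x = x := wproj_sum h hA h2 h3 (fun φ hφ => by
      rw [Set.Finite.mem_toFinset]
      rcases hφ with hφ | hφ
      · exact Set.mem_insert_of_mem _ hφ
      · exact hφ ▸ Set.mem_insert _ _) x
    have h5 : ∀ φ ∈ hfin.toFinset, P φ x ∈ S := comp_mem hS _ hfin.toFinset (fun φ => P φ x) rfl (fun χ _ => h1 χ x) (by rw [h4]; exact hx)
    have h6 : (⟨x, hx⟩ : S) = ∑ φ ∈ hfin.toFinset.attach, ⟨P φ.1 x, h5 φ.1 φ.2⟩ := by
      apply Subtype.ext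
      rw [Submodule.coe_sum, Finset.sum_attach hfin.toFinset (fun φ => P φ x), h4]
    rw [h6]
    refine Submodule.sum_mem _ fun φ _ => Submodule.subset_span ⟨φ.1, h1 φ.1 x⟩
  let B := Module.Basis.ofSpan (K := ℝ) (V := S) (s := {x : S | ∃ φ : Module.Dual ℝ A, Wv A φ (x : L)}) (le_of_eq hs.symm)
  have hB : ∀ i, ∃ φ : Module.Dual ℝ A, Wv A φ (B i : L) := by
    intro i
    have h1 : B i ∈ {x : S | ∃ φ : Module.Dual ℝ A, Wv A φ (x : L)} := Module.Basis.ofSpan_subset (le_of_eq hs.symm) ⟨i, rfl⟩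
    exact h1
  let ε := B.indexEquiv (Module.finBasis ℝ S)
  choose φ hφ using hB
  refine ⟨_, B.reindex ε, fun k => φ (ε.symm k), fun k => ?_⟩
  rw [Module.Basis.reindex_apply]
  exact hφ _

section

variable [Fintype κ] {S : Submodule ℝ L} {e : Module.Basis κ ℝ S} {wt : κ → Module.Dual ℝ A}

/-- The coordinates of a weight vector. -/
theorem Wb.mem (hE : Wb A S e wt) {φ : Module.Dual ℝ A} {z : S} (hz : Wv A φ (z : L)) {l : κ} (h : e.repr z l ≠ 0) : wt l = φ := by
  refine LinearMap.ext fun a => ?_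
  have h1 : ∑ k, (e.repr z k * (wt k a - φ a)) • e k = 0 := by
    apply Subtype.ext
    rw [Submodule.coe_sum, Submodule.coe_zero]
    have h2 : ∑ k, (e.repr z k • (e k : L)) = z := by
      conv_rhs => rw [← e.sum_repr z]
      rw [Submodule.coe_sum]
      rfl
    have h3 : ∑ k, ((((e.repr z k * (wt k a - φ a)) • e k : S)) : L) = ⁅(a : L), (z : L)⁆ - φ a • (z : L) := by
      conv_rhs => rw [← h2, lie_sum, Finset.smul_sum, ← Finset.sum_sub_distrib]
      refine Finset.sum_congr rfl fun k _ => ?_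
      rw [Submodule.coe_smul, lie_smul, hE k a]
      module
    rw [h3, hz a, sub_self]
  have h2 := Fintype.linearIndependent_iff.1 e.linearIndependent _ h1 l
  exact sub_eq_zero.1 ((mul_eq_zero.1 h2).resolve_left h)

theorem Wb.rsp_eq (hE : Wb A S e wt) {φ : Module.Dual ℝ A} (hφ : rsp A φ ≤ S) :
    rsp A φ = Submodule.span ℝ (Set.range fun k : {k // wt k = φ} => (e k : L)) := by
  classical
  refine le_antisymm ?_ (Submodule.span_le.2 ?_)
  · intro z hz
    have h2 : ∑ k, (e.repr ⟨z, hφ hz⟩ k • (e k : L)) = z := by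
      have h3 := congrArg (fun y : S => (y : L)) (e.sum_repr ⟨z, hφ hz⟩)
      simp only [Submodule.coe_sum, Submodule.coe_smul] at h3
      exact h3
    rw [← h2]
    refine Submodule.sum_mem _ fun k _ => ?_
    by_cases h : e.repr ⟨z, hφ hz⟩ k = 0
    · rw [h, zero_smul]
      exact Submodule.zero_mem _
    · exact Submodule.smul_mem _ _ (Submodule.subset_span ⟨⟨k, hE.mem (z := ⟨z, hφ hz⟩) hz h⟩, rfl⟩)
  · rintro _ ⟨⟨k, hk⟩, rfl⟩
    have h1 := hE k
    rw [hk] at h1
    exact h1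

open Classical in
/-- The dimension of a root space. -/
theorem Wb.finrank_rsp (hE : Wb A S e wt) {φ : Module.Dual ℝ A} (hφ : rsp A φ ≤ S) : finrank ℝ (rsp A φ) = Fintype.card {k // wt k = φ} := by
  rw [hE.rsp_eq hφ, finrank_span_eq_card]
  exact (e.linearIndependent.map' S.subtype (Submodule.ker_subtype S)).comp _ Subtype.val_injective

omit [Fintype κ] in
theorem Wb.root (hE : Wb A S e wt) {k : κ} (h : wt k ≠ 0) : wt k ∈ rootsL A := ⟨h, e k, fun h0 => e.ne_zero k (Subtype.ext h0), hE k⟩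

end

end Pool.Agent.Helper25.EN
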