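import Pool.Agent.Helper25.EN.Sing2
import Pool.Agent.Helper25.EN.List
import Pool.Agent.Helper25.EN.Wb

/-!
# Project FQ (MP_0f6f3f_an), layer EN (the end): the node `u`

`LvS A al u S`: `S` is a subspace which is stable under `A`, contains the root spaces of all roots supported off `u`, and no other root vector. `spec_u`: a linear bijection `Θ : S ≃ S'` which carries `exp(ad H)`, for all values of the
simple roots `al k H ≥ 0`, `k ≠ u`, to `U exp(ad μ) W`, `U`, `W` bounded, `al' k μ = f k (al k H) + O(1)`, exists only if `f k s = s + O(1)` and the root spaces of `L`, `L'` off `u` have equal dimensions.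
-/

set_option autoImplicit false

namespace Pool.Agent.Helper25.EN

open Module Pool.Agent.Helper96.SA Pool.Agent.Helper96.TO Pool.Agent.Helper69.SLN Pool.Agent.Helper77.LA Pool.Agent.Helper77.FQ
  Pool.Agent.Helper68.FQ Pool.Agent.Helper25.AE

variable {L : Type} [LieRing L] [LieAlgebra ℝ L] {N : ℕ} {θ : L ≃ₗ⁅ℝ⁆ L} {b : Module.Basis (Fin N) ℝ L} {A : Submodule ℝ L}
  {τ : Module.Dual ℝ A ≃ₗ[ℝ] A} {ι : Type} [Fintype ι] {al : ι → Module.Dual ℝ A}

/-- The Levi part of a node. -/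
structure LvS (A : Submodule ℝ L) (al : ι → Module.Dual ℝ A) (u : ι) (S : Submodule ℝ L) : Prop where
  st : ∀ a : A, ∀ x ∈ S, ⁅(a : L), x⁆ ∈ S
  rt : ∀ n : ι → ℤ, n u = 0 → (∑ k, (n k : ℝ) • al k) ∈ rootsL A → rsp A (∑ k, (n k : ℝ) • al k) ≤ S
  of : ∀ n : ι → ℤ, n u ≠ 0 → ∀ x ∈ S, Wv A (∑ k, (n k : ℝ) • al k) x → x = 0

/-- The coefficients of the weights. -/
theorem LvS.exists_co {u : ι} {S : Submodule ℝ L} (hS : LvS A al u S) (cm : Cmb A al) {κ : Type} {e : Module.Basis κ ℝ S}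
    {wt : κ → Module.Dual ℝ A} (hE : Wb A S e wt) : ∃ m : κ → ι → ℤ, (∀ a, wt a = ∑ k, (m a k : ℝ) • al k) ∧ ∀ a, m a u = 0 := by
  have h1 : ∀ a, ∃ m : ι → ℤ, wt a = ∑ k, (m k : ℝ) • al k ∧ m u = 0 := by
    intro a
    by_cases h0 : wt a = 0
    · exact ⟨fun _ => 0, by rw [h0]; simp, rfl⟩
    · obtain ⟨c, hc⟩ := cm _ (hE.root h0)
      obtain ⟨m, hm⟩ : ∃ m : ι → ℤ, wt a = ∑ k, (m k : ℝ) • al k := by
        rcases hc with hc | hc
        · refine ⟨fun k => (c k : ℤ), ?_⟩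
          rw [hc]
          push_cast
          rfl
        · refine ⟨fun k => -(c k : ℤ), ?_⟩
          rw [hc, ← Finset.sum_neg_distrib]
          refine Finset.sum_congr rfl fun k _ => ?_
          push_cast
          exact (neg_smul _ _).symm
      refine ⟨m, hm, ?_⟩
      by_contra h2
      exact e.ne_zero a (Subtype.ext (hS.of m h2 (e a) (e a).2 (hm ▸ hE a)))
  choose m hm using h1
  exact ⟨m, fun a => (hm a).1, fun a => (hm a).2⟩

/-- The dimensions of the root spaces. -/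
theorem LvS.finrank_eq {u : ι} {S : Submodule ℝ L} (hS : LvS A al u S) (hl : LinearIndependent ℝ al) {κ : Type} [Fintype κ] {e : Module.Basis κ ℝ S}
    {wt : κ → Module.Dual ℝ A} (hE : Wb A S e wt) {m : κ → ι → ℤ} (hm : ∀ a, wt a = ∑ k, (m a k : ℝ) • al k) {n : ι → ℤ} (hu : n u = 0)
    (hn : n ≠ 0) [Fintype {a // m a = n}] : finrank ℝ (rsp A (∑ k, (n k : ℝ) • al k)) = Fintype.card {a // m a = n} := by
  classical
  have h0 : ∑ k, (n k : ℝ) • al k ≠ 0 := by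
    intro h0
    apply hn
    refine Cf.inj hl ?_
    rw [h0]
    simp
  by_cases h1 : (∑ k, (n k : ℝ) • al k) ∈ rootsL A
  · rw [hE.finrank_rsp (hS.rt n hu h1)]
    refine Fintype.card_congr (Equiv.subtypeEquivRight fun a => ?_)
    rw [hm a]
    exact ⟨fun h => Cf.inj hl h, fun h => by rw [h]⟩
  · have h2 : rsp A (∑ k, (n k : ℝ) • al k) = ⊥ := by
      rw [Submodule.eq_bot_iff]
      intro x hx
      by_contra hx0
      exact h1 ⟨h0, x, hx0, hx⟩
    rw [h2, finrank_bot]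
    have h3 : IsEmpty {a // m a = n} := ⟨fun a => h1 (by
      rw [← a.2, ← hm a.1]
      refine hE.root ?_
      rw [hm a.1, a.2]
      exact h0)⟩
    exact (Fintype.card_eq_zero).symm

/-- The simple roots occur. -/
theorem LvS.exists_simple [DecidableEq ι] {u : ι} {S : Submodule ℝ L} (hS : LvS A al u S) (hl : LinearIndependent ℝ al) (hr : ∀ i, al i ∈ rootsL A) {κ : Type} [Fintype κ]
    {e : Module.Basis κ ℝ S} {wt : κ → Module.Dual ℝ A} (hE : Wb A S e wt) {m : κ → ι → ℤ} (hm : ∀ a, wt a = ∑ k, (m a k : ℝ) • al k) (k : {k // k ≠ u}) :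
    ∃ a, ∀ j : {j // j ≠ u}, m a j.1 = if j = k then 1 else 0 := by
  classical
  have h1 : ∑ j, ((Pi.single k.1 (1 : ℤ) : ι → ℤ) j : ℝ) • al j = al k.1 := by
    rw [Finset.sum_eq_single k.1]
    · rw [Pi.single_eq_same]
      push_cast
      exact one_smul _ _
    · intro j _ hj
      rw [Pi.single_eq_of_ne hj, Int.cast_zero]
      exact zero_smul ℝ _
    · intro h
      exact absurd (Finset.mem_univ _) h
  have h2 : rsp A (al k.1) ≤ S := by
    have h3 := hS.rt (Pi.single k.1 1) (Pi.single_eq_of_ne k.2.symm _)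
    rw [h1] at h3
    exact h3 (hr k.1)
  obtain ⟨-, x, hx0, hx⟩ := hr k.1
  obtain ⟨l, hl0⟩ : ∃ l, e.repr ⟨x, h2 hx⟩ l ≠ 0 := by
    by_contra h3
    push Not at h3
    apply hx0
    have h4 : e.repr ⟨x, h2 hx⟩ = 0 := Finsupp.ext h3
    exact congrArg Subtype.val (e.repr.map_eq_zero_iff.1 h4)
  have h3 : wt l = al k.1 := hE.mem (z := ⟨x, h2 hx⟩) hx hl0
  have h4 : m l = Pi.single k.1 1 := Cf.inj hl (by rw [← hm l, h3, h1])
  refine ⟨l, fun j => ?_⟩
  rw [h4]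
  by_cases h5 : j = k
  · rw [if_pos h5, h5, Pi.single_eq_same]
  · rw [if_neg h5, Pi.single_eq_of_ne (fun h6 => h5 (Subtype.ext h6))]

theorem sum_off [DecidableEq ι] {u : ι} {m : ι → ℤ} (hu : m u = 0) (c : A) :
    (∑ k, (m k : ℝ) • al k) c = ∑ k : {k // k ≠ u}, (m k.1 : ℝ) * al k.1 c := by
  rw [LinearMap.sum_apply]
  have h1 : ∀ k ∈ (Finset.univ.filter fun k => k ≠ u), ((m k : ℝ) • al k) c = (m k : ℝ) * al k c := fun k _ => rfl
  rw [← Finset.sum_subtype (Finset.univ.filter fun k => k ≠ u) (fun k => by simp) (fun k => (m k : ℝ) * al k c), ← Finset.sum_congr rfl h1]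
  symm
  refine Finset.sum_subset (Finset.subset_univ _) fun k _ hk => ?_
  have h2 : k = u := by
    by_contra h3
    exact hk (Finset.mem_filter.2 ⟨Finset.mem_univ _, h3⟩)
  rw [h2, hu, Int.cast_zero]
  show (0 : ℝ) • al u c = 0
  exact zero_smul ℝ _

variable {L' : Type} [LieRing L'] [LieAlgebra ℝ L'] {N' : ℕ} {θ' : L' ≃ₗ⁅ℝ⁆ L'} {b' : Module.Basis (Fin N') ℝ L'} {A' : Submodule ℝ L'}
  {τ' : Module.Dual ℝ A' ≃ₗ[ℝ] A'} {al' : ι → Module.Dual ℝ A'}

/-- **The node `u`.** -/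
theorem spec_u (s : SD θ b A τ al) (s' : SD θ' b' A' τ' al') (cm : Cmb A al) (cm' : Cmb A' al') (u : ι) {S : Submodule ℝ L} {S' : Submodule ℝ L'}
    (hS : LvS A al u S) (hS' : LvS A' al' u S') (Θ : S ≃ₗ[ℝ] S') {κ : Type} [Fintype κ] (q : Module.Basis κ ℝ S') (K C : ℝ) (f : ι → ℝ → ℝ)
    (hyp : ∀ c : ι → ℝ, (∀ k, k ≠ u → 0 ≤ c k) → ∃ (H : A) (μ : A') (D : S →ₗ[ℝ] S) (T U Y W : S' →ₗ[ℝ] S'),
      (∀ k, k ≠ u → al k H = c k) ∧ (∀ k, k ≠ u → 0 ≤ al' k μ) ∧ (∀ k, k ≠ u → |al' k μ - f k (c k)| ≤ C) ∧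
      (∀ (φ : Module.Dual ℝ A) (x : S), Wv A φ (x : L) → D x = Real.exp (φ H) • x) ∧
      (∀ (φ : Module.Dual ℝ A') (x : S'), Wv A' φ (x : L') → Y x = Real.exp (φ μ) • x) ∧ (∀ v, T v = U (Y (W v))) ∧
      (∀ v, qf q (U v) ≤ K * qf q v) ∧ (∀ v, qf q v ≤ K * qf q (U v)) ∧ (∀ v, qf q (W v) ≤ K * qf q v) ∧ (∀ v, qf q v ≤ K * qf q (W v)) ∧
      ∀ v, T (Θ v) = Θ (D v)) :
    (∃ D : ℝ, 0 ≤ D ∧ ∀ k, k ≠ u → ∀ t, 0 ≤ t → |f k t - t| ≤ D) ∧
      ∀ n : ι → ℤ, n u = 0 → n ≠ 0 → finrank ℝ (rsp A (∑ k, (n k : ℝ) • al k)) = finrank ℝ (rsp A' (∑ k, (n k : ℝ) • al' k)) := by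
  classical
  obtain ⟨p, e, wt, hE⟩ := exists_wb s.h s.hA hS.st
  obtain ⟨p', e', wt', hE'⟩ := exists_wb s'.h s'.hA hS'.st
  obtain ⟨m, hm, hmu⟩ := hS.exists_co cm hE
  obtain ⟨m', hm', hmu'⟩ := hS'.exists_co cm' hE'
  obtain ⟨C1, hC1⟩ := sing_lists2 e e' q Θ K
  have key : ∀ t : {k // k ≠ u} → ℝ, ∃ w : {k // k ≠ u} → ℝ, (∀ k, 0 ≤ t k) → (∀ k, 0 ≤ w k) ∧ (∀ k, |w k - f k.1 (t k)| ≤ C) ∧
      ∃ σ : Fin p ≃ Fin p', ∀ a, |∑ k, (m a k.1 : ℝ) * t k - ∑ k, (m' (σ a) k.1 : ℝ) * w k| ≤ C1 := by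
    intro t
    by_cases ht : ∀ k, 0 ≤ t k
    · obtain ⟨H, μ, D, T, U, Y, W, h1, h2, h3, h4, h5, h6, h7, h8, h9, h10, h11⟩ := hyp (fun k => if h : k ≠ u then t ⟨k, h⟩ else 0) (fun k hk => by
        rw [dif_pos hk]
        exact ht _)
      refine ⟨fun k => al' k.1 μ, fun _ => ⟨fun k => h2 k.1 k.2, fun k => ?_, ?_⟩⟩
      · have h12 := h3 k.1 k.2
        rw [dif_pos k.2] at h12
        exact h12
      · obtain ⟨σ, hσ⟩ := hC1 (fun a => wt a H) (fun b => wt' b μ) D T U Y W (fun a => h4 _ _ (hE a)) (fun b => h5 _ _ (hE' b)) h6 h7 h8 h9 h10 h11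
        refine ⟨σ, fun a => ?_⟩
        have h12 := hσ a
        rw [hm a, hm' (σ a), sum_off (hmu a), sum_off (hmu' (σ a))] at h12
        have h13 : ∀ k : {k // k ≠ u}, al k.1 H = t k := fun k => by
          rw [h1 k.1 k.2, dif_pos k.2]
        simp only [h13] at h12
        exact h12
    · exact ⟨fun _ => 0, fun h => absurd h ht⟩
  choose w hw using key
  obtain ⟨⟨D, hD0, hD⟩, σ, hσ⟩ := list_eq (fun a (k : {k // k ≠ u}) => m a k.1) (fun a (k : {k // k ≠ u}) => m' a k.1) (fun k => f k.1) w (|C| + |C1|) (fun t ht => by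
      obtain ⟨-, -, σ, hσ⟩ := hw t ht
      refine ⟨σ, fun a => (hσ a).trans ?_⟩
      have := le_abs_self C1
      have := abs_nonneg C
      linarith) (fun t ht k => by
      have h1 := (hw t ht).2.1 k
      have := le_abs_self C
      have := abs_nonneg C1
      linarith) (fun k t ht => by
      obtain ⟨h1, h2, -⟩ := hw (fun _ => t) (fun _ => ht)
      have h3 := h1 k
      have h4 := (abs_le.1 (h2 k)).2
      have := le_abs_self C
      have := abs_nonneg C1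
      linarith) (hS.exists_simple s.li s.hS.root hE hm) (hS'.exists_simple s'.li s'.hS.root hE' hm')
  refine ⟨⟨D, hD0, fun k hk t ht => hD ⟨k, hk⟩ t ht⟩, fun n hu hn => ?_⟩
  rw [hS.finrank_eq s.li hE hm hu hn, hS'.finrank_eq s'.li hE' hm' hu hn]
  refine Fintype.card_congr (Equiv.subtypeEquiv σ fun a => ?_)
  have h1 : m' (σ a) = m a := by
    funext k
    by_cases hk : k = u
    · rw [hk, hmu, hmu']
    · exact congrFun (hσ a) ⟨k, hk⟩
  rw [h1]

end Pool.Agent.Helper25.EN
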